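import Pool.Agent.Hhelper39.CohGen

set_option linter.unusedSimpArgs false
set_option linter.unusedSectionVars false
set_option linter.unusedDecidableInType false
set_option linter.unusedFintypeInType false

open Matrix Finset

namespace Pool.Agent.Hhelper39.CoherentRank

/-- The combinatorial data of the affine space over `𝔽₃`: points `V`, parallel classes `P`, the
class `p` partitioning `V` into three blocks `{x | l p x = a}` of size `3μ`. -/
structure Frame (V P : Type) [Fintype V] [Fintype P] [DecidableEq V] [DecidableEq P] where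
  l : P → V → ZMod 3
  μ : ℕ
  μpos : 0 < μ
  cardV : Fintype.card V = 9 * μ
  cardP : 2 * Fintype.card P + 1 = 9 * μ
  fib1 : ∀ p a, #{x | l p x = a} = 3 * μ
  fib2 : ∀ p q, p ≠ q → ∀ a b, #{x | l p x = a ∧ l q x = b} = μ
  agree : ∀ x y, x ≠ y → 2 * #{p | l p x = l p y} + 1 = 3 * μ

/-- The cells: four cells of type I and `2 |M|` cells of type II. -/
abbrev Cell (M : Type) := Fin 4 ⊕ (M × Bool)

/-- The twin of a type II cell. -/
def tw {M : Type} (k : M × Bool) : M × Bool := (k.1, !k.2)

variable {M : Type} [Fintype M] [DecidableEq M]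

@[simp] lemma tw_tw (k : M × Bool) : tw (tw k) = k := by simp [tw]

lemma tw_ne (k : M × Bool) : tw k ≠ k := by
  intro h; have := congrArg Prod.snd h; simp [tw] at this

lemma eq_tw_comm {j k : M × Bool} : j = tw k ↔ k = tw j := by
  constructor <;> (rintro rfl; simp)

/-- constant part -/
def cc : Cell M → Cell M → ℂ
  | .inr _, .inr _ => 1
  | _, _ => 0

/-- sign part -/
def ee : Cell M → Cell M → ℂ
  | .inl a, .inl b => if a = b then 0 else 1
  | .inr i, .inr k => if k = tw i then 0 else -1
  | _, _ => 1

/-- `w = 3c + ε` -/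
def ww (i j : Cell M) : ℂ := 3 * cc i j + ee i j

/-- the Perron weights -/
def gg : Cell M → ℂ
  | .inl _ => 1
  | .inr _ => 2

lemma cc_symm (i j : Cell M) : cc i j = cc j i := by
  rcases i with i | i <;> rcases j with j | j <;> simp [cc]

lemma ee_symm (i j : Cell M) : ee i j = ee j i := by
  rcases i with i | i <;> rcases j with j | j <;> simp [ee, eq_comm, eq_tw_comm]

lemma ww_symm (i j : Cell M) : ww i j = ww j i := by
  rw [ww, ww, cc_symm, ee_symm]

/-- `w` between different cells -/
lemma sum_ww (i k : Cell M) (hik : i ≠ k) :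
    ∑ j, ww i j * ww j k = (2 * Fintype.card M + 2) * (gg i * gg k) := by
  rcases i with i | i <;> rcases k with k | k
  · have h : i ≠ k := fun h => hik (by rw [h])
    have h1 : ∑ j : Fin 4, (if i = j then (0:ℂ) else 1) * (if j = k then 0 else 1) = 2 := by
      fin_cases i <;> fin_cases k <;> simp_all [Fin.sum_univ_four] <;> norm_num
    simp only [Fintype.sum_sum_type, ww, cc, ee, gg, mul_zero, zero_add, h1]
    simp
    ring
  · have h1 : ∑ j : Fin 4, (if i = j then (0:ℂ) else 1) = 3 := by
      fin_cases i <;> simp [Fin.sum_univ_four] <;> norm_num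
    simp only [Fintype.sum_sum_type, ww, cc, ee, gg, mul_zero, zero_add, mul_one, one_mul, h1]
    have h3 : ∑ j : M × Bool, ((3:ℂ) + (if k = tw j then (0:ℂ) else -1)) = 4 * Fintype.card M + 1 := by
      have : ∀ j : M × Bool, ((3:ℂ) + (if k = tw j then (0:ℂ) else -1)) = 2 + (if j = tw k then 1 else 0) := by
        intro j
        by_cases h2 : j = tw k
        · rw [if_pos h2, if_pos (eq_tw_comm.mp h2)]; norm_num
        · rw [if_neg h2, if_neg (fun h => h2 (eq_tw_comm.mp h))]; norm_num
      simp only [this, Finset.sum_add_distrib, Finset.sum_ite_eq', Finset.mem_univ, if_true]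
      simp; ring
    rw [h3]; ring
  · have h1 : ∑ j : Fin 4, (if j = k then (0:ℂ) else 1) = 3 := by
      fin_cases k <;> simp [Fin.sum_univ_four] <;> norm_num
    simp only [Fintype.sum_sum_type, ww, cc, ee, gg, mul_zero, zero_add, mul_one, one_mul, h1]
    have h3 : ∑ j : M × Bool, ((3:ℂ) + (if j = tw i then (0:ℂ) else -1)) = 4 * Fintype.card M + 1 := by
      have : ∀ j : M × Bool, ((3:ℂ) + (if j = tw i then (0:ℂ) else -1)) = 2 + (if j = tw i then 1 else 0) := by
        intro j; split_ifs <;> norm_num
      simp only [this, Finset.sum_add_distrib, Finset.sum_ite_eq', Finset.mem_univ, if_true]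
      simp; ring
    rw [h3]; ring
  · have h : i ≠ k := fun h => hik (by rw [h])
    simp only [Fintype.sum_sum_type, ww, cc, ee, gg, mul_zero, zero_add, mul_one, one_mul]
    have h3 : ∑ j : M × Bool, ((3:ℂ) + (if j = tw i then (0:ℂ) else -1)) * (3 + (if k = tw j then (0:ℂ) else -1)) = 8 * Fintype.card M + 4 := by
      have : ∀ j : M × Bool, ((3:ℂ) + (if j = tw i then (0:ℂ) else -1)) * (3 + (if k = tw j then (0:ℂ) else -1)) = 4 + (if j = tw i then 2 else 0) + (if j = tw k then 2 else 0) := by
        intro j
        by_cases h1 : j = tw i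
        · have h2 : j ≠ tw k := by
            rintro rfl
            apply h
            have := congrArg tw h1
            simpa using this.symm
          rw [if_pos h1, if_pos h1, if_neg h2, if_neg (fun h => h2 (eq_tw_comm.mp h))]; norm_num
        · by_cases h2 : j = tw k
          · rw [if_neg h1, if_neg h1, if_pos h2, if_pos (eq_tw_comm.mp h2)]; norm_num
          · rw [if_neg h1, if_neg h1, if_neg h2, if_neg (fun h => h2 (eq_tw_comm.mp h))]; norm_num
      simp only [this, Finset.sum_add_distrib, Finset.sum_ite_eq', Finset.mem_univ, if_true]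
      simp; ring
    rw [h3]; simp; ring

lemma sum_ww_gg (i : Cell M) :
    ∑ j, ww i j * gg j = (4 * Fintype.card M + 3) * gg i := by
  rcases i with i | i
  · have h1 : ∑ j : Fin 4, (if i = j then (0:ℂ) else 1) = 3 := by
      fin_cases i <;> simp [Fin.sum_univ_four] <;> norm_num
    simp only [Fintype.sum_sum_type, ww, cc, ee, gg, mul_zero, zero_add, mul_one, one_mul, h1]
    simp; ring
  · simp only [Fintype.sum_sum_type, ww, cc, ee, gg, mul_zero, zero_add, mul_one, one_mul]
    have h3 : ∑ j : M × Bool, ((3:ℂ) + (if j = tw i then (0:ℂ) else -1)) * 2 = 8 * Fintype.card M + 2 := by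
      have : ∀ j : M × Bool, ((3:ℂ) + (if j = tw i then (0:ℂ) else -1)) * 2 = 4 + (if j = tw i then 2 else 0) := by
        intro j; split_ifs <;> norm_num
      simp only [this, Finset.sum_add_distrib, Finset.sum_ite_eq', Finset.mem_univ, if_true]
      simp; ring
    rw [h3]; simp; ring

lemma sum_diag (i : Cell M) :
    ∑ j, (3 * cc i j * cc i j + 2 * cc i j * ee i j) = (2 * Fintype.card M + 2) * (gg i * gg i - 1) / 3 := by
  rcases i with i | i
  · simp [Fintype.sum_sum_type, cc, gg]
  · simp only [Fintype.sum_sum_type, cc, ee, gg, mul_zero, zero_mul, zero_add, mul_one, add_zero, Finset.sum_const_zero]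
    have h3 : ∑ j : M × Bool, ((3:ℂ) + 2 * (if j = tw i then (0:ℂ) else -1)) = 2 * Fintype.card M + 2 := by
      have : ∀ j : M × Bool, ((3:ℂ) + 2 * (if j = tw i then (0:ℂ) else -1)) = 1 + (if j = tw i then 2 else 0) := by
        intro j; split_ifs <;> norm_num
      simp only [this, Finset.sum_add_distrib, Finset.sum_ite_eq', Finset.mem_univ, if_true]
      simp; ring
    rw [h3]; ring

end Pool.Agent.Hhelper39.CoherentRank
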