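import Mathlib

open Matrix

namespace Pool.Agent.Hhelper39.CoherentRank

/-- A *coherent algebra* on the finite set `X`: a (unital) subalgebra of `Mat_X(ℂ)` -- so it
contains the identity matrix `I` and is closed under linear combinations and under the ordinary
matrix product -- which contains the all-ones matrix `J` and is closed under transposition and
under the entrywise (Hadamard) product. -/
structure IsCoherentAlgebra {X : Type*} [Fintype X] [DecidableEq X]
    (S : Subalgebra ℂ (Matrix X X ℂ)) : Prop where
  allOnes_mem : (Matrix.of fun _ _ => (1 : ℂ)) ∈ S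
  transpose_mem : ∀ M ∈ S, Mᵀ ∈ S
  hadamard_mem : ∀ M ∈ S, ∀ N ∈ S, M ⊙ N ∈ S

/-- The *coherent closure* `𝒲(Γ)` of a finite graph `Γ`: the smallest coherent algebra that
contains the adjacency matrix of `Γ`, i.e. the intersection of all coherent algebras containing
it (see `isCoherentAlgebra_coherentClosure` for the fact that it is a coherent algebra). -/
def coherentClosure {X : Type*} [Fintype X] [DecidableEq X] (Γ : SimpleGraph X)
    [DecidableRel Γ.Adj] : Subalgebra ℂ (Matrix X X ℂ) :=
  sInf {S | IsCoherentAlgebra S ∧ Γ.adjMatrix ℂ ∈ S}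

/-- The *coherent rank* of a finite graph `Γ`: the dimension of its coherent closure. -/
noncomputable def coherentRank {X : Type*} [Fintype X] [DecidableEq X] (Γ : SimpleGraph X)
    [DecidableRel Γ.Adj] : ℕ :=
  Module.finrank ℂ (coherentClosure Γ)

/-- Membership in the class `𝒢₃`: `Γ` is connected and its adjacency matrix has exactly three
distinct eigenvalues. -/
def InG3 {X : Type*} [Fintype X] [DecidableEq X] (Γ : SimpleGraph X)
    [DecidableRel Γ.Adj] : Prop :=
  Γ.Connected ∧ (spectrum ℂ (Γ.adjMatrix ℂ)).ncard = 3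

/-- Sanity check: the coherent closure is a coherent algebra, and it contains the adjacency
matrix. -/
theorem isCoherentAlgebra_coherentClosure {X : Type*} [Fintype X] [DecidableEq X]
    (Γ : SimpleGraph X) [DecidableRel Γ.Adj] :
    IsCoherentAlgebra (coherentClosure Γ) ∧ Γ.adjMatrix ℂ ∈ coherentClosure Γ := by
  refine ⟨⟨?_, ?_, ?_⟩, ?_⟩
  · rw [coherentClosure, Algebra.mem_sInf]
    rintro S ⟨hS, -⟩
    exact hS.allOnes_mem
  · intro M hM
    rw [coherentClosure, Algebra.mem_sInf] at hM ⊢
    rintro S ⟨hS, hA⟩
    exact hS.transpose_mem M (hM S ⟨hS, hA⟩)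
  · intro M hM N hN
    rw [coherentClosure, Algebra.mem_sInf] at hM hN ⊢
    rintro S ⟨hS, hA⟩
    exact hS.hadamard_mem M (hM S ⟨hS, hA⟩) N (hN S ⟨hS, hA⟩)
  · rw [coherentClosure, Algebra.mem_sInf]
    rintro S ⟨-, hA⟩
    exact hA

end Pool.Agent.Hhelper39.CoherentRank
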