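import Pool.Agent.Hhelper39.CohFrame

set_option linter.unusedSimpArgs false
set_option linter.unusedSectionVars false
set_option linter.unusedDecidableInType false
set_option linter.unusedFintypeInType false

open Matrix Finset

namespace Pool.Agent.Hhelper39.CoherentRank

lemma exists_bijOn {α β : Type} [Fintype α] [DecidableEq α] [Fintype β] [DecidableEq β] [Nonempty β]
    (A : Finset α) (hcard : #A = Fintype.card β) (s : Finset α) (hs : s ⊆ A) (f : α → β)
    (hf : Set.InjOn f s) : ∃ g : α → β, Set.BijOn g A Set.univ ∧ ∀ i ∈ s, g i = f i := by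
  classical
  have h1 : Fintype.card A = #(Finset.univ : Finset β) := by
    rw [Fintype.card_coe, hcard, Finset.card_univ]
  obtain ⟨g, hg⟩ := Finset.exists_equiv_extend_of_card_eq (α := A) (t := (Finset.univ : Finset β)) h1
    (s := Finset.univ.filter (fun a : A => a.1 ∈ s)) (f := fun a => f a.1)
    (Finset.subset_univ _) (by
      intro a ha b hb hab
      rw [Finset.mem_coe, Finset.mem_filter] at ha hb
      exact Subtype.ext (hf ha.2 hb.2 hab))
  refine ⟨fun a => if h : a ∈ A then (g ⟨a, h⟩).1 else Classical.arbitrary β, ⟨?_, ?_, ?_⟩, ?_⟩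
  · intro a _; exact Set.mem_univ _
  · intro a ha b hb hab
    rw [Finset.mem_coe] at ha hb
    simp only [dif_pos ha, dif_pos hb] at hab
    have := g.injective (Subtype.ext hab)
    exact congrArg Subtype.val this
  · intro b _
    refine ⟨(g.symm ⟨b, Finset.mem_univ b⟩).1, (g.symm ⟨b, Finset.mem_univ b⟩).2, ?_⟩
    simp
  · intro i hi
    have h2 := hs hi
    simp only [dif_pos h2]
    exact hg ⟨i, h2⟩ (by simp [hi])

variable {M : Type} [Fintype M] [DecidableEq M]

lemma supp_inl (a : Fin 4) : {j : Cell M | ee (Sum.inl a) j ≠ 0} =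
    ((Finset.univ.erase (Sum.inl a) : Finset (Cell M)) : Set (Cell M)) := by
  ext j
  rcases j with j | j
  · simp [ee, eq_comm]
  · simp [ee]

lemma supp_inr (k : M × Bool) : {j : Cell M | ee (Sum.inr k) j ≠ 0} =
    ((Finset.univ.erase (Sum.inr (tw k)) : Finset (Cell M)) : Set (Cell M)) := by
  ext j
  rcases j with j | j
  · simp [ee]
  · simp [ee]

lemma card_erase (x : Cell M) : #(Finset.univ.erase x : Finset (Cell M)) = 2 * Fintype.card M + 3 := by
  rw [Finset.card_erase_of_mem (Finset.mem_univ _), Finset.card_univ]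
  simp only [Fintype.card_sum, Fintype.card_prod, Fintype.card_fin, Fintype.card_bool]
  omega

lemma nonempty_cls (n : ℕ) : Nonempty (Cls n) := ⟨spc n 0⟩

lemma exists_wire_inr (n : ℕ) (hm : 4 * Fintype.card M + 7 = 9 * 3 ^ (n + 1)) (k : M × Bool)
    (S : Finset (M × Bool)) (hS : #S = 9) (hk : tw k ∉ S) :
    ∃ g : Cell M → Cls n, Set.BijOn g {j | ee (Sum.inr k) j ≠ 0} Set.univ ∧
      (∀ j, g (Sum.inl j) = spc n j) ∧ ∀ i, i ≠ tw k → (g (Sum.inr i) ∈ LL n ↔ i ∈ S) := by
  classical
  have := nonempty_cls n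
  have hsub : (Finset.univ.image (spc n)) ⊆ LL n := by
    intro p hp
    obtain ⟨j, -, rfl⟩ := Finset.mem_image.mp hp
    exact spc_mem n j
  have hcard : #(LL n \ Finset.univ.image (spc n)) = 9 := by
    rw [Finset.card_sdiff_of_subset hsub, card_LL, Finset.card_image_of_injective _ (spc_inj n)]
    simp
  let e : S ≃ (LL n \ Finset.univ.image (spc n) : Finset (Cls n)) :=
    Finset.equivOfCardEq (hS.trans hcard.symm)
  let f : Cell M → Cls n := Sum.elim (spc n) (fun i => if h : i ∈ S then (e ⟨i, h⟩).1 else spc n 0)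
  have fS : ∀ i (h : i ∈ S), f (Sum.inr i) = (e ⟨i, h⟩).1 := by
    intro i h; simp only [f, Sum.elim_inr, dif_pos h]
  have fS' : ∀ i (h : i ∈ S), f (Sum.inr i) ∈ LL n ∧ ∀ j, spc n j ≠ f (Sum.inr i) := by
    intro i h
    rw [fS i h]
    have := (e ⟨i, h⟩).2
    rw [Finset.mem_sdiff, Finset.mem_image] at this
    exact ⟨this.1, fun j hj => this.2 ⟨j, Finset.mem_univ _, hj⟩⟩
  let s : Finset (Cell M) := (Finset.univ.image Sum.inl) ∪ S.image Sum.inr
  have hs : s ⊆ Finset.univ.erase (Sum.inr (tw k)) := by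
    intro x hx
    rw [Finset.mem_erase]
    refine ⟨?_, Finset.mem_univ _⟩
    rintro rfl
    rw [Finset.mem_union, Finset.mem_image, Finset.mem_image] at hx
    rcases hx with ⟨j, -, hj⟩ | ⟨i, hi, hij⟩
    · cases hj
    · exact hk (by rw [← Sum.inr.inj hij]; exact hi)
  have memr : ∀ i, Sum.inr i ∈ s ↔ i ∈ S := by
    intro i
    simp [s]
  have meml : ∀ j, (Sum.inl j : Cell M) ∈ s := by
    intro j; simp [s]
  have hf : Set.InjOn f s := by
    intro a ha b hb hab
    rw [Finset.mem_coe] at ha hb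
    rcases a with a | a <;> rcases b with b | b
    · have : spc n a = spc n b := hab
      rw [spc_inj n this]
    · exact absurd hab ((fS' b ((memr b).mp hb)).2 a)
    · exact absurd hab.symm ((fS' a ((memr a).mp ha)).2 b)
    · rw [fS a ((memr a).mp ha), fS b ((memr b).mp hb)] at hab
      have := e.injective (Subtype.ext hab)
      rw [Subtype.mk.injEq] at this
      rw [this]
  have hcard2 : #(Finset.univ.erase (Sum.inr (tw k)) : Finset (Cell M)) = Fintype.card (Cls n) := by
    rw [card_erase]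
    have := card_Cls n
    omega
  obtain ⟨g, hg, hgs⟩ := exists_bijOn _ hcard2 s hs f hf
  refine ⟨g, ?_, ?_, ?_⟩
  · rw [supp_inr]; exact hg
  · intro j
    rw [hgs _ (meml j)]; rfl
  · intro i hi
    constructor
    · intro hL
      -- the class equals `f x` for some `x ∈ s`
      have hx : ∃ x ∈ s, f x = g (Sum.inr i) := by
        by_cases h1 : g (Sum.inr i) ∈ Finset.univ.image (spc n)
        · obtain ⟨j, -, hj⟩ := Finset.mem_image.mp h1
          exact ⟨Sum.inl j, meml j, hj⟩
        · have h2 : g (Sum.inr i) ∈ LL n \ Finset.univ.image (spc n) :=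
            Finset.mem_sdiff.mpr ⟨hL, h1⟩
          obtain ⟨⟨x, hx⟩, hxe⟩ := e.surjective ⟨_, h2⟩
          refine ⟨Sum.inr x, (memr x).mpr hx, ?_⟩
          rw [fS x hx, hxe]
      obtain ⟨x, hxs, hx⟩ := hx
      rw [← hgs x hxs] at hx
      have h3 : x = Sum.inr i := hg.injOn (hs hxs) (by
        rw [Finset.mem_coe, Finset.mem_erase]
        exact ⟨fun h => hi (Sum.inr.inj h), Finset.mem_univ _⟩) hx
      rw [h3] at hxs
      exact (memr i).mp hxs
    · intro h
      rw [hgs _ ((memr i).mpr h)]
      exact (fS' i h).1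

lemma exists_wire_inl (n : ℕ) (hm : 4 * Fintype.card M + 7 = 9 * 3 ^ (n + 1)) (a : Fin 4) :
    ∃ g : Cell M → Cls n, Set.BijOn g {j | ee (Sum.inl a) j ≠ 0} Set.univ := by
  have := nonempty_cls n
  have hcard2 : #(Finset.univ.erase (Sum.inl a) : Finset (Cell M)) = Fintype.card (Cls n) := by
    rw [card_erase]
    have := card_Cls n
    omega
  obtain ⟨g, hg, -⟩ := exists_bijOn _ hcard2 ∅ (Finset.empty_subset _) (fun _ => spc n 0)
    (by simp)
  exact ⟨g, by rw [supp_inl]; exact hg⟩

/-- For every choice of 9-sets `S i` of type II cells avoiding `i` and its twin there is a design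
in which the cells `k` with `q i k ∈ L` are exactly those in `S i`. -/
theorem exists_design (n : ℕ) (hm : 4 * Fintype.card M + 7 = 9 * 3 ^ (n + 1))
    (S : M × Bool → Finset (M × Bool)) (hS : ∀ i, #(S i) = 9) (hS1 : ∀ i, i ∉ S i)
    (hS2 : ∀ i, tw i ∉ S i) :
    ∃ D : Design (frame n) M, ∀ k, D.deg k = #{i | k ∈ S i} := by
  classical
  choose g1 hg1 using exists_wire_inl (M := M) n hm
  choose g2 hg2 hg2' hg2'' using fun k => exists_wire_inr (M := M) n hm k (S k) (hS k) (hS2 k)
  let q : Cell M → Cell M → Cls n := fun i => Sum.elim g1 g2 i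
  refine ⟨{
    q := q
    bij := ?_
    hm := hm
    sp := spc n
    L := LL n
    ζ := zeta n
    ζpos := zeta_pos n
    q_sp := ?_
    q_self := ?_
    cardZ := ?_
    hL := ?_
    hnL := ?_ }, ?_⟩
  · intro i
    rcases i with i | i
    · exact hg1 i
    · exact hg2 i
  · intro i j
    exact hg2' i j
  · intro i h
    exact hS1 i ((hg2'' i i (tw_ne i).symm).mp h)
  · intro u
    simp only [Zrel_iff]
    exact card_Z n u
  · intro p hp u y h
    exact LL_agree p hp u y ((Zrel_iff u y).mp h)
  · intro p hp u c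
    simp only [Zrel_iff]
    exact notLL_balanced p hp u c
  · intro k
    change #{i | i ≠ tw k ∧ q (Sum.inr i) (Sum.inr k) ∈ LL n} = _
    congr 1
    ext i
    simp only [Finset.mem_filter, Finset.mem_univ, true_and]
    constructor
    · rintro ⟨h1, h2⟩
      exact (hg2'' i k (fun h => h1 (eq_tw_comm.mp h))).mp h2
    · intro h
      have h1 : k ≠ tw i := by
        rintro rfl
        exact hS2 i h
      exact ⟨fun h' => h1 (eq_tw_comm.mp h'), (hg2'' i k h1).mpr h⟩

end Pool.Agent.Hhelper39.CoherentRank
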