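import Pool.Agent.Hhelper39.CohHalf

set_option linter.unusedSimpArgs false
set_option linter.unusedSectionVars false
set_option linter.unusedDecidableInType false
set_option linter.unusedFintypeInType false

open Matrix Finset

namespace Pool.Agent.Hhelper39.CoherentRank

lemma card_Pt (n : ℕ) : Fintype.card (Pt n) = 9 * 3 ^ (n + 1) := by
  simp only [Fintype.card_fun, ZMod.card, Fintype.card_sum, Fintype.card_fin]
  ring

lemma dot_single {n : ℕ} (p : Pt n) (i : Fin 3 ⊕ Fin n) (c : ZMod 3) :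
    p ⬝ᵥ (Pi.single i c) = p i * c := dotProduct_single _ _ _

lemma fib_dot {n : ℕ} (p : Pt n) (hp : p ≠ 0) (a : ZMod 3) :
    #{x : Pt n | p ⬝ᵥ x = a} = 3 * 3 ^ (n + 1) := by
  obtain ⟨i, hi⟩ := Function.ne_iff.mp hp
  have h := balance (Finset.univ : Finset (Pt n)) (fun x => p ⬝ᵥ x) (Pi.single i 1) (p i) hi
    (by simp) (fun x => by rw [dotProduct_add, dot_single, mul_one]) a
  rw [Finset.card_univ, card_Pt] at h
  omega

lemma zmod3_cases (a : ZMod 3) : a = 0 ∨ a = 1 ∨ a = -1 := by revert a; decide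

lemma exists_sep {n : ℕ} (p q : Cls n) (hpq : p ≠ q) : ∃ u : Pt n, p.1 ⬝ᵥ u = 0 ∧ q.1 ⬝ᵥ u ≠ 0 := by
  obtain ⟨i, hi⟩ := Function.ne_iff.mp p.ne_zero
  rw [Pi.zero_apply] at hi
  have hpi : p.1 i * p.1 i = 1 := by
    generalize p.1 i = a at hi
    revert a; decide
  have h1 : q.1 ≠ (q.1 i * p.1 i) • p.1 := by
    intro h
    rcases zmod3_cases (q.1 i * p.1 i) with h' | h' | h'
    · rw [h', zero_smul] at h; exact q.ne_zero h
    · rw [h', one_smul] at h; exact hpq (Subtype.ext h.symm)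
    · rw [h', neg_one_smul] at h; exact Cls.ne_neg p q h
  obtain ⟨j, hj⟩ := Function.ne_iff.mp h1
  refine ⟨Pi.single j 1 - Pi.single i (p.1 j * p.1 i), ?_, ?_⟩
  · rw [dotProduct_sub, dot_single, dot_single]
    linear_combination (-p.1 j) * hpi
  · rw [dotProduct_sub, dot_single, dot_single]
    intro h
    apply hj
    rw [Pi.smul_apply, smul_eq_mul]
    linear_combination h

lemma fib2_dot {n : ℕ} (p q : Cls n) (hpq : p ≠ q) (a b : ZMod 3) :
    #{x : Pt n | p.1 ⬝ᵥ x = a ∧ q.1 ⬝ᵥ x = b} = 3 ^ (n + 1) := by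
  obtain ⟨u, hu1, hu2⟩ := exists_sep p q hpq
  have h := balance ({x : Pt n | p.1 ⬝ᵥ x = a} : Finset (Pt n)) (fun x => q.1 ⬝ᵥ x) u
    (q.1 ⬝ᵥ u) hu2 (fun x => by simp [dotProduct_add, hu1]) (fun x => by rw [dotProduct_add]) b
  rw [fib_dot p.1 p.ne_zero a, Finset.filter_filter] at h
  omega

lemma agree_dot {n : ℕ} (x y : Pt n) (hxy : x ≠ y) :
    2 * #{p : Cls n | p.1 ⬝ᵥ x = p.1 ⬝ᵥ y} + 1 = 3 * 3 ^ (n + 1) := by
  rw [half_count (fun v : Pt n => v ⬝ᵥ x = v ⬝ᵥ y)]
  · have h := fib_dot (x - y) (sub_ne_zero.mpr hxy) 0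
    rw [← h]
    congr 1
    ext v
    simp only [Finset.mem_filter, Finset.mem_univ, true_and]
    rw [sub_dotProduct, sub_eq_zero, dotProduct_comm x v, dotProduct_comm y v]
  · intro v
    simp [neg_dotProduct]
  · simp

lemma card_Cls (n : ℕ) : 2 * Fintype.card (Cls n) + 1 = 9 * 3 ^ (n + 1) := by
  have h := half_count (n := n) (fun _ => True) (fun _ => Iff.rfl) trivial
  simp only [Finset.filter_true, Finset.card_univ] at h
  rw [h, card_Pt]

/-- The frame of the affine space `AG(n + 3, 3)`. -/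
noncomputable def frame (n : ℕ) : Frame (Pt n) (Cls n) where
  l p x := p.1 ⬝ᵥ x
  μ := 3 ^ (n + 1)
  μpos := by positivity
  cardV := card_Pt n
  cardP := card_Cls n
  fib1 p a := fib_dot p.1 p.ne_zero a
  fib2 p q hpq a b := fib2_dot p q hpq a b
  agree x y hxy := agree_dot x y hxy

/-- the classes that only depend on the first three coordinates -/
noncomputable def LL (n : ℕ) : Finset (Cls n) := {p | ∀ b : Fin n, p.1 (Sum.inr b) = 0}

lemma card_LL (n : ℕ) : #(LL n) = 13 := by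
  have h := half_count (n := n) (fun v => ∀ b : Fin n, v (Sum.inr b) = 0) (fun v => by simp)
    (fun b => by simp)
  have h2 : #{v : Pt n | ∀ b : Fin n, v (Sum.inr b) = 0} = 27 := by
    have h3 : #(Finset.univ : Finset (Fin 3 → ZMod 3)) = 27 := by
      rw [Finset.card_univ]; simp
    rw [← h3]
    symm
    refine Finset.card_bij (fun f _ => Sum.elim f 0) ?_ ?_ ?_
    · intro f _
      simp
    · intro f _ g _ h
      ext i
      have := congrFun h (Sum.inl i)
      simpa using this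
    · intro v hv
      rw [Finset.mem_filter] at hv
      refine ⟨fun i => v (Sum.inl i), Finset.mem_univ _, ?_⟩
      ext i
      rcases i with i | i
      · simp
      · simp [hv.2 i]
  rw [h2] at h
  have : #(LL n) = #{p : Cls n | ∀ b : Fin n, p.1 (Sum.inr b) = 0} := rfl
  omega

/-- the four special functionals `e₀, e₁, e₂, e₀ + e₁` -/
def sv (n : ℕ) (j : Fin 4) : Pt n :=
  match j with
  | 0 => Pi.single (Sum.inl 0) 1
  | 1 => Pi.single (Sum.inl 1) 1
  | 2 => Pi.single (Sum.inl 2) 1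
  | 3 => Pi.single (Sum.inl 0) 1 + Pi.single (Sum.inl 1) 1

lemma sv_ne (n : ℕ) (j : Fin 4) : sv n j ≠ 0 := by
  intro h
  fin_cases j
  · have := congrFun h (Sum.inl 0); simp [sv] at this
  · have := congrFun h (Sum.inl 1); simp [sv] at this
  · have := congrFun h (Sum.inl 2); simp [sv] at this
  · have := congrFun h (Sum.inl 0); simp [sv] at this

noncomputable def spc (n : ℕ) (j : Fin 4) : Cls n := (exists_cls (sv n j) (sv_ne n j)).choose

lemma spc_spec (n : ℕ) (j : Fin 4) : (spc n j).1 = sv n j ∨ (spc n j).1 = - sv n j :=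
  (exists_cls (sv n j) (sv_ne n j)).choose_spec

lemma sv_inr (n : ℕ) (j : Fin 4) (b : Fin n) : sv n j (Sum.inr b) = 0 := by
  fin_cases j <;> simp [sv]

lemma spc_mem (n : ℕ) (j : Fin 4) : spc n j ∈ LL n := by
  simp only [LL, Finset.mem_filter, Finset.mem_univ, true_and]
  intro b
  rcases spc_spec n j with h | h <;> rw [h] <;> simp [sv_inr]

lemma spc_inj (n : ℕ) : Function.Injective (spc n) := by
  intro i j h
  have h1 := spc_spec n i
  have h2 := spc_spec n j
  rw [h] at h1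
  have h3 : sv n j = sv n i ∨ sv n j = - sv n i := by
    rcases h1 with h1 | h1 <;> rcases h2 with h2 | h2 <;> rw [h1] at h2
    · exact Or.inl h2.symm
    · right; rw [h2, neg_neg]
    · exact Or.inr h2.symm
    · left; exact (neg_injective h2).symm
  have key : ∀ a : Fin 3, sv n j (Sum.inl a) = sv n i (Sum.inl a) ∨
      sv n j (Sum.inl a) = - sv n i (Sum.inl a) := by
    intro a
    rcases h3 with h3 | h3 <;> rw [h3]
    · left; rfl
    · right; rfl
  have k0 := key 0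
  have k1 := key 1
  have k2 := key 2
  clear key h3 h1 h2 h
  have v00 : sv n 0 (Sum.inl 0) = 1 := by simp [sv]
  have v01 : sv n 0 (Sum.inl 1) = 0 := by simp [sv]
  have v02 : sv n 0 (Sum.inl 2) = 0 := by simp [sv]
  have v10 : sv n 1 (Sum.inl 0) = 0 := by simp [sv]
  have v11 : sv n 1 (Sum.inl 1) = 1 := by simp [sv]
  have v12 : sv n 1 (Sum.inl 2) = 0 := by simp [sv]
  have v20 : sv n 2 (Sum.inl 0) = 0 := by simp [sv]
  have v21 : sv n 2 (Sum.inl 1) = 0 := by simp [sv]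
  have v22 : sv n 2 (Sum.inl 2) = 1 := by simp [sv]
  have v30 : sv n 3 (Sum.inl 0) = 1 := by simp [sv]
  have v31 : sv n 3 (Sum.inl 1) = 1 := by simp [sv]
  have v32 : sv n 3 (Sum.inl 2) = 0 := by simp [sv]
  have e1 : ¬ ((1 : ZMod 3) = 0) := by decide
  have e2 : ¬ ((1 : ZMod 3) = -0) := by decide
  have e3 : ¬ ((0 : ZMod 3) = 1) := by decide
  have e4 : ¬ ((0 : ZMod 3) = -1) := by decide
  fin_cases i <;> fin_cases j <;>
    simp only [Fin.mk_zero, Fin.zero_eta, Fin.mk_one, Fin.reduceFinMk, v00, v01, v02, v10, v11, v12,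
      v20, v21, v22, v30, v31, v32, e1, e2, e3, e4, or_self] at k0 k1 k2 ⊢

lemma Zrel_iff {n : ℕ} (u y : Pt n) : (∀ j, (frame n).l (spc n j) u = (frame n).l (spc n j) y) ↔
    ∀ a : Fin 3, u (Sum.inl a) = y (Sum.inl a) := by
  have h1 : ∀ j, ((frame n).l (spc n j) u = (frame n).l (spc n j) y) ↔ sv n j ⬝ᵥ u = sv n j ⬝ᵥ y := by
    intro j
    change (spc n j).1 ⬝ᵥ u = (spc n j).1 ⬝ᵥ y ↔ _
    rcases spc_spec n j with h | h <;> rw [h]
    simp [neg_dotProduct]
  simp only [h1]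
  have s0 : ∀ x : Pt n, sv n 0 ⬝ᵥ x = x (Sum.inl 0) := by intro x; simp [sv]
  have s1 : ∀ x : Pt n, sv n 1 ⬝ᵥ x = x (Sum.inl 1) := by intro x; simp [sv]
  have s2 : ∀ x : Pt n, sv n 2 ⬝ᵥ x = x (Sum.inl 2) := by intro x; simp [sv]
  have s3 : ∀ x : Pt n, sv n 3 ⬝ᵥ x = x (Sum.inl 0) + x (Sum.inl 1) := by
    intro x; simp [sv, add_dotProduct]
  constructor
  · intro h a
    fin_cases a
    · have := h 0; rwa [s0, s0] at this
    · have := h 1; rwa [s1, s1] at this
    · have := h 2; rwa [s2, s2] at this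
  · intro h j
    fin_cases j
    · change sv n 0 ⬝ᵥ u = sv n 0 ⬝ᵥ y; rw [s0, s0, h]
    · change sv n 1 ⬝ᵥ u = sv n 1 ⬝ᵥ y; rw [s1, s1, h]
    · change sv n 2 ⬝ᵥ u = sv n 2 ⬝ᵥ y; rw [s2, s2, h]
    · change sv n 3 ⬝ᵥ u = sv n 3 ⬝ᵥ y; rw [s3, s3, h, h]

/-- size of a cell of the common refinement of the special classes -/
noncomputable def zeta (n : ℕ) : ℕ := #{y : Pt n | ∀ a : Fin 3, (0 : Pt n) (Sum.inl a) = y (Sum.inl a)}

lemma zeta_pos (n : ℕ) : 0 < zeta n := by
  rw [zeta, Finset.card_pos]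
  exact ⟨0, by simp⟩

lemma card_Z (n : ℕ) (u : Pt n) : #{y : Pt n | ∀ a : Fin 3, u (Sum.inl a) = y (Sum.inl a)} = zeta n := by
  rw [zeta]
  refine Finset.card_bij (fun y _ => y - u) ?_ ?_ ?_
  · intro y hy
    simp only [Finset.mem_filter, Finset.mem_univ, true_and] at hy ⊢
    intro a
    simp [hy a]
  · intro a _ b _ h
    exact sub_left_injective h
  · intro y hy
    simp only [Finset.mem_filter, Finset.mem_univ, true_and] at hy
    refine ⟨y + u, ?_, by simp⟩
    simp only [Finset.mem_filter, Finset.mem_univ, true_and]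
    intro a
    have := hy a
    rw [Pi.zero_apply] at this
    simp [← this]

lemma LL_agree {n : ℕ} (p : Cls n) (hp : p ∈ LL n) (u y : Pt n)
    (h : ∀ a : Fin 3, u (Sum.inl a) = y (Sum.inl a)) : (frame n).l p u = (frame n).l p y := by
  change p.1 ⬝ᵥ u = p.1 ⬝ᵥ y
  simp only [LL, Finset.mem_filter, Finset.mem_univ, true_and] at hp
  simp only [dotProduct, Fintype.sum_sum_type, h, hp, zero_mul, Finset.sum_const_zero]

lemma notLL_balanced {n : ℕ} (p : Cls n) (hp : p ∉ LL n) (u : Pt n) (c : ZMod 3) :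
    3 * #{y : Pt n | (∀ a : Fin 3, u (Sum.inl a) = y (Sum.inl a)) ∧ (frame n).l p y = c} = zeta n := by
  simp only [LL, Finset.mem_filter, Finset.mem_univ, true_and, not_forall] at hp
  obtain ⟨b, hb⟩ := hp
  have h := balance ({y : Pt n | ∀ a : Fin 3, u (Sum.inl a) = y (Sum.inl a)} : Finset (Pt n))
    (fun x => p.1 ⬝ᵥ x) (Pi.single (Sum.inr b) 1) (p.1 (Sum.inr b)) hb
    (fun x => by simp) (fun x => by rw [dotProduct_add, dot_single, mul_one]) c
  rw [card_Z, Finset.filter_filter] at h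
  exact h

end Pool.Agent.Hhelper39.CoherentRank
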