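import Pool.Agent.Hhelper39.CohGraph

set_option linter.unusedSimpArgs false
set_option linter.unusedSectionVars false
set_option linter.unusedDecidableInType false
set_option linter.unusedFintypeInType false

open Matrix Finset

namespace Pool.Agent.Hhelper39.CoherentRank

variable {V P : Type} [Fintype V] [Fintype P] [DecidableEq V] [DecidableEq P]
variable {M : Type} [Fintype M] [DecidableEq M]
variable {F : Frame V P} (W : Wiring F M)

lemma Wiring.adjMatrix_eq [DecidableRel W.graph.Adj] : W.graph.adjMatrix ℂ = W.A := by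
  ext x y
  rw [SimpleGraph.adjMatrix_apply]
  have hadj : W.graph.Adj x y ↔ W.A x y = 1 := Iff.rfl
  rcases W.A_01 x y with h | h
  · rw [if_neg]
    · exact h.symm
    · rw [hadj, h]; exact zero_ne_one
  · rw [if_pos (hadj.mpr h), h]

lemma Frame.mu_ne (F : Frame V P) : (F.μ : ℂ) ≠ 0 := by
  exact_mod_cast F.μpos.ne'

lemma gg_ne (i : Cell M) : (gg i : ℂ) ≠ 0 := by
  rcases i with i | i <;> simp [gg]

lemma card_ne : (2 * Fintype.card M + 2 : ℂ) ≠ 0 := by
  have : ((2 * Fintype.card M + 2 : ℕ) : ℂ) ≠ 0 := by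
    exact_mod_cast Nat.succ_ne_zero (2 * Fintype.card M + 1)
  push_cast at this
  exact this

lemma Frame.exists_ne (F : Frame V P) : ∃ x y : V, x ≠ y := by
  have h1 : 1 < Fintype.card V := by rw [F.cardV]; have := F.μpos; omega
  exact Fintype.one_lt_card_iff.mp h1

lemma Wiring.spectrum_eq : spectrum ℂ W.A =
    {(3 * F.μ : ℂ), -(3 * F.μ : ℂ), (3 * F.μ * (4 * Fintype.card M + 3) : ℂ)} := by
  obtain ⟨x, y, hxy⟩ := F.exists_ne
  have hne : ((Sum.inl 0, x) : Cell M × V) ≠ (Sum.inl 0, y) := by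
    intro h; exact hxy (Prod.mk.inj h).2
  refine spectrum_three W.A ?_ _ _ _ (fun x => gg x.1) W.A_mul_A W.A_mulVec
    (Sum.inl 0, x) (Sum.inl 0, y) hne ?_ ?_
  · ext a b; rw [Matrix.transpose_apply, W.A_symm]
  · rw [W.A_apply]; simp [cc, ee]
  · exact mul_ne_zero (mul_ne_zero F.mu_ne card_ne) (mul_ne_zero (gg_ne _) (gg_ne _))

lemma Wiring.ncard_spectrum : (spectrum ℂ W.A).ncard = 3 := by
  rw [W.spectrum_eq]
  have hμ := F.mu_ne
  have h1 : (3 * F.μ : ℂ) ≠ -(3 * F.μ : ℂ) := by
    intro h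
    have : (6 * F.μ : ℂ) = 0 := by linear_combination h
    apply hμ; simpa using this
  have h2 : (3 * F.μ : ℂ) ≠ (3 * F.μ * (4 * Fintype.card M + 3) : ℂ) := by
    intro h
    have : (3 * F.μ * (4 * Fintype.card M + 2) : ℂ) = 0 := by linear_combination -h
    rcases mul_eq_zero.mp this with h' | h'
    · apply hμ; simpa using h'
    · have : ((4 * Fintype.card M + 2 : ℕ) : ℂ) ≠ 0 := by
        exact_mod_cast Nat.succ_ne_zero (4 * Fintype.card M + 1)
      push_cast at this
      exact this h'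
  have h3 : -(3 * F.μ : ℂ) ≠ (3 * F.μ * (4 * Fintype.card M + 3) : ℂ) := by
    intro h
    have : (3 * F.μ * (4 * Fintype.card M + 4) : ℂ) = 0 := by linear_combination -h
    rcases mul_eq_zero.mp this with h' | h'
    · apply hμ; simpa using h'
    · have : ((4 * Fintype.card M + 4 : ℕ) : ℂ) ≠ 0 := by
        exact_mod_cast Nat.succ_ne_zero (4 * Fintype.card M + 3)
      push_cast at this
      exact this h'
  rw [Set.ncard_eq_toFinset_card']
  simp [h1, h2, h3, Finset.card_insert_of_notMem]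

lemma Wiring.connected : W.graph.Connected := by
  obtain ⟨x0, y0, hxy0⟩ := F.exists_ne
  have : Nonempty (Cell M × V) := ⟨(Sum.inl 0, x0)⟩
  refine ⟨?_⟩
  intro x y
  by_cases hxy : x = y
  · rw [hxy]
  have h1 : (W.A * W.A) x y ≠ 0 := by
    rw [W.A_mul_A]
    simp only [Matrix.add_apply, Matrix.smul_apply, Matrix.one_apply_ne hxy, Matrix.of_apply]
    rw [smul_eq_mul, mul_zero, zero_add]
    exact mul_ne_zero (mul_ne_zero F.mu_ne (card_ne (M := M))) (mul_ne_zero (gg_ne x.1) (gg_ne y.1))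
  rw [Matrix.mul_apply] at h1
  obtain ⟨z, -, hz⟩ := Finset.exists_ne_zero_of_sum_ne_zero h1
  have hxz : W.A x z = 1 := (W.A_01 x z).resolve_left (left_ne_zero_of_mul hz)
  have hzy : W.A z y = 1 := (W.A_01 z y).resolve_left (right_ne_zero_of_mul hz)
  have a1 : W.graph.Adj x z := hxz
  have a2 : W.graph.Adj z y := hzy
  exact a1.reachable.trans a2.reachable

lemma Wiring.inG3 [DecidableRel W.graph.Adj] : InG3 W.graph :=
  ⟨W.connected, by rw [W.adjMatrix_eq]; exact W.ncard_spectrum⟩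

end Pool.Agent.Hhelper39.CoherentRank
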