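import Pool.Agent.Hhelper39.CohDefs

set_option linter.unusedSimpArgs false

open Matrix

namespace Pool.Agent.Hhelper39.CoherentRank

section General

variable {X : Type*} [Fintype X] [DecidableEq X]

lemma map_eval_mem {S : Subalgebra ℂ (Matrix X X ℂ)} (hS : IsCoherentAlgebra S)
    {M : Matrix X X ℂ} (hM : M ∈ S) (p : Polynomial ℂ) : M.map (fun z => p.eval z) ∈ S := by
  induction p using Polynomial.induction_on' with
  | add p q hp hq =>
    have : M.map (fun z => (p + q).eval z) = M.map (fun z => p.eval z) + M.map (fun z => q.eval z) := by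
      ext x y; simp
    rw [this]
    exact S.add_mem hp hq
  | monomial n a =>
    have h1 : ∀ k : ℕ, M.map (fun z => z ^ k) ∈ S := by
      intro k
      induction k with
      | zero =>
        have : M.map (fun z => z ^ 0) = Matrix.of fun _ _ => (1 : ℂ) := by ext x y; simp
        rw [this]; exact hS.allOnes_mem
      | succ k ih =>
        have : M.map (fun z => z ^ (k + 1)) = M.map (fun z => z ^ k) ⊙ M := by
          ext x y; simp [pow_succ]
        rw [this]
        exact hS.hadamard_mem _ ih _ hM
    have : M.map (fun z => (Polynomial.monomial n a).eval z) = a • M.map (fun z => z ^ n) := by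
      ext x y; simp
    rw [this]
    exact S.smul_mem (h1 n) a

/-- A coherent algebra is closed under applying an arbitrary function entrywise. -/
lemma map_mem {S : Subalgebra ℂ (Matrix X X ℂ)} (hS : IsCoherentAlgebra S)
    {M : Matrix X X ℂ} (hM : M ∈ S) (f : ℂ → ℂ) : M.map f ∈ S := by
  classical
  set T : Finset ℂ := Finset.univ.image (fun xy : X × X => M xy.1 xy.2) with hT
  have h := map_eval_mem hS hM (Lagrange.interpolate T id f)
  convert h using 1
  ext x y
  have hxy : M x y ∈ T := by
    rw [hT, Finset.mem_image]; exact ⟨(x, y), Finset.mem_univ _, rfl⟩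
  have := Lagrange.eval_interpolate_at_node (s := T) (v := id) f (Function.injective_id.injOn) hxy
  simp only [id] at this
  simp only [Matrix.map_apply]
  exact this.symm

/-- The dimension of a coherent algebra is at least the number of different entries of any of its
members. -/
lemma card_le_finrank {S : Subalgebra ℂ (Matrix X X ℂ)} (hS : IsCoherentAlgebra S)
    {M : Matrix X X ℂ} (hM : M ∈ S) {N : ℕ} (c : Fin N → ℂ) (hc : Function.Injective c)
    (hval : ∀ i, ∃ x y, M x y = c i) : N ≤ Module.finrank ℂ S := by
  classical
  let Φ : (Fin N → ℂ) →ₗ[ℂ] S :=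
    { toFun := fun f => ⟨M.map (fun z => ∑ i, if z = c i then f i else 0), map_mem hS hM _⟩
      map_add' := by
        intro f g
        ext x y
        simp only [Matrix.map_apply, Pi.add_apply, Subalgebra.coe_add, Matrix.add_apply]
        rw [← Finset.sum_add_distrib]
        refine Finset.sum_congr rfl fun i _ => ?_
        split_ifs <;> simp
      map_smul' := by
        intro a f
        ext x y
        simp only [Matrix.map_apply, Pi.smul_apply, RingHom.id_apply, Subalgebra.coe_smul,
          Matrix.smul_apply, smul_eq_mul]
        rw [Finset.mul_sum]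
        refine Finset.sum_congr rfl fun i _ => ?_
        split_ifs <;> simp }
  have hinj : Function.Injective Φ := by
    rw [← LinearMap.ker_eq_bot, LinearMap.ker_eq_bot']
    intro f hf
    ext i
    obtain ⟨x, y, hxy⟩ := hval i
    have h1 : (Φ f : Matrix X X ℂ) x y = 0 := by rw [hf]; rfl
    have h2 : (Φ f : Matrix X X ℂ) x y = ∑ j, if M x y = c j then f j else 0 := rfl
    rw [h2, hxy] at h1
    rw [Finset.sum_eq_single i] at h1
    · simpa using h1
    · intro j _ hj
      rw [if_neg]
      intro h
      exact hj (hc h).symm
    · intro h; exact absurd (Finset.mem_univ _) h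
  have := LinearMap.finrank_le_finrank_of_injective hinj
  simpa using this

lemma spectrum_three (A : Matrix X X ℂ) (hsym : Aᵀ = A) (s θ t : ℂ) (g : X → ℂ)
    (hA2 : A * A = (s ^ 2) • (1 : Matrix X X ℂ) + t • Matrix.of (fun x y => g x * g y))
    (hg : A *ᵥ g = θ • g) (x y : X) (hxy : x ≠ y) (hA0 : A x y = 0)
    (ht : t * (g x * g y) ≠ 0) : spectrum ℂ A = {s, -s, θ} := by
  classical
  have : Nonempty X := ⟨x⟩
  have hG : Matrix.of (fun x y => g x * g y) * A = θ • Matrix.of (fun x y => g x * g y) := by
    ext a b
    have h1 : ∑ j, A b j * g j = θ * g b := by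
      have := congrFun hg b
      simpa [Matrix.mulVec, dotProduct] using this
    simp only [Matrix.mul_apply, Matrix.of_apply, Matrix.smul_apply, smul_eq_mul]
    have h2 : ∀ j, A b j = A j b := by
      intro j
      have := congrFun (congrFun hsym b) j
      simpa using this.symm
    calc ∑ j, g a * g j * A j b = g a * ∑ j, A b j * g j := by
          rw [Finset.mul_sum]; refine Finset.sum_congr rfl fun j _ => ?_; rw [h2]; ring
      _ = θ * (g a * g b) := by rw [h1]; ring
  have hprod1 : (A - s • 1) * (A + s • 1) = t • Matrix.of (fun x y => g x * g y) := by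
    have : (A - s • 1) * (A + s • 1) = A * A - (s ^ 2) • (1 : Matrix X X ℂ) := by
      simp only [sub_mul, mul_add, smul_mul_assoc, mul_smul_comm, one_mul, mul_one, smul_smul,
        pow_two, smul_add, smul_sub, add_mul]
      abel
    rw [this, hA2]; simp
  have hprod : (A - s • 1) * (A + s • 1) * (A - θ • 1) = 0 := by
    rw [hprod1, mul_sub, smul_mul_assoc, hG]
    simp [smul_smul, mul_comm]
  -- the three values are eigenvalues
  have key : ∀ (c : ℂ), c ∉ spectrum ℂ A → IsUnit (A - c • (1 : Matrix X X ℂ)) := by
    intro c hc
    rw [spectrum.notMem_iff] at hc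
    rw [Algebra.algebraMap_eq_smul_one] at hc
    have := hc.neg
    simpa using this
  have hxy' : (A * A) x y = t * (g x * g y) := by
    rw [hA2]; simp [Matrix.one_apply_ne hxy]
  apply Set.eq_of_subset_of_subset
  · intro c hc
    -- `(c - s) (c + s) (c - θ) = 0`
    by_contra hcon
    simp only [Set.mem_insert_iff, Set.mem_singleton_iff, not_or] at hcon
    obtain ⟨h1, h2, h3⟩ := hcon
    set p : Polynomial ℂ := (Polynomial.X - Polynomial.C s) * (Polynomial.X + Polynomial.C s) *
      (Polynomial.X - Polynomial.C θ) with hp
    have hp0 : Polynomial.aeval A p = 0 := by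
      rw [hp]
      simp only [map_mul, map_sub, map_add, Polynomial.aeval_X, Polynomial.aeval_C,
        Algebra.algebraMap_eq_smul_one]
      exact hprod
    have h4 := spectrum.subset_polynomial_aeval A p (Set.mem_image_of_mem _ hc)
    rw [hp0] at h4
    have h5 : Polynomial.eval c p = 0 := by
      have := spectrum.zero_eq (𝕜 := ℂ) (A := Matrix X X ℂ)
      rw [this] at h4
      exact h4
    rw [hp] at h5
    simp only [Polynomial.eval_mul, Polynomial.eval_sub, Polynomial.eval_add, Polynomial.eval_X,
      Polynomial.eval_C, mul_eq_zero] at h5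
    rcases h5 with (h5 | h5) | h5
    · exact h1 (sub_eq_zero.mp h5)
    · exact h2 (eq_neg_of_add_eq_zero_left h5)
    · exact h3 (sub_eq_zero.mp h5)
  · intro c hc
    simp only [Set.mem_insert_iff, Set.mem_singleton_iff] at hc
    by_contra hcon
    have hu := key c hcon
    rcases hc with rfl | rfl | rfl
    · rw [mul_assoc] at hprod
      have h1 : (A + c • 1) * (A - θ • 1) = 0 := (hu.mul_right_eq_zero).mp hprod
      have h2 := congrFun (congrFun h1 x) y
      have h3 : (A + c • 1) * (A - θ • 1) = A * A + (c - θ) • A - (c * θ) • 1 := by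
        simp only [sub_mul, mul_add, mul_sub, smul_mul_assoc, mul_smul_comm, one_mul, mul_one,
          smul_smul, sub_smul, smul_add, smul_sub, add_mul]
        rw [mul_comm θ c]
        abel
      rw [h3] at h2
      simp only [Matrix.sub_apply, Matrix.add_apply, Matrix.smul_apply, smul_eq_mul, hA0,
        Matrix.one_apply_ne hxy, hxy'] at h2
      apply ht; simpa using h2
    · have hu' : IsUnit (A + s • (1 : Matrix X X ℂ)) := by simpa using hu
      have hcomm : (A - s • 1) * (A + s • 1) = (A + s • 1) * (A - s • (1 : Matrix X X ℂ)) := by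
        simp only [sub_mul, mul_add, mul_sub, smul_mul_assoc, mul_smul_comm, one_mul, mul_one,
          smul_smul, sub_smul, smul_add, smul_sub, add_mul]
        abel
      rw [hcomm, mul_assoc] at hprod
      have h1 : (A - s • 1) * (A - θ • 1) = 0 := (hu'.mul_right_eq_zero).mp hprod
      have h2 := congrFun (congrFun h1 x) y
      have h3 : (A - s • 1) * (A - θ • 1) = A * A - (s + θ) • A + (s * θ) • 1 := by
        simp only [sub_mul, mul_add, mul_sub, smul_mul_assoc, mul_smul_comm, one_mul, mul_one,
          smul_smul, sub_smul, smul_add, smul_sub, add_mul, add_smul]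
        rw [mul_comm θ s]
        abel
      rw [h3] at h2
      simp only [Matrix.sub_apply, Matrix.add_apply, Matrix.smul_apply, smul_eq_mul, hA0,
        Matrix.one_apply_ne hxy, hxy'] at h2
      apply ht; simpa using h2
    · have h1 : (A - s • 1) * (A + s • 1) = 0 := (hu.mul_left_eq_zero).mp hprod
      rw [hprod1] at h1
      have h2 := congrFun (congrFun h1 x) y
      apply ht; simpa using h2

end General

end Pool.Agent.Hhelper39.CoherentRank
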