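import Pool.Agent.Hhelper39.CohCell

set_option linter.unusedSimpArgs false
set_option linter.unusedSectionVars false
set_option linter.unusedDecidableInType false
set_option linter.unusedFintypeInType false

open Matrix Finset

namespace Pool.Agent.Hhelper39.CoherentRank

variable {V P : Type} [Fintype V] [Fintype P] [DecidableEq V] [DecidableEq P]
variable {M : Type} [Fintype M] [DecidableEq M]

lemma Frame.sum1 (F : Frame V P) (p : P) (a : ZMod 3) :
    ∑ y, (if F.l p y = a then (1:ℂ) else 0) = 3 * F.μ := by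
  rw [Finset.sum_boole, F.fib1]; push_cast; ring

lemma Frame.sum1' (F : Frame V P) (p : P) (a : ZMod 3) :
    ∑ y, (if a = F.l p y then (1:ℂ) else 0) = 3 * F.μ := by
  rw [← F.sum1 p a]; refine Finset.sum_congr rfl fun y _ => ?_
  simp only [eq_comm]

lemma Frame.sum2 (F : Frame V P) (p q : P) (a b : ZMod 3) :
    ∑ y, (if a = F.l p y then (1:ℂ) else 0) * (if F.l q y = b then (1:ℂ) else 0) =
      if p = q then (if a = b then 3 * (F.μ : ℂ) else 0) else F.μ := by
  have h1 : ∀ y, (if a = F.l p y then (1:ℂ) else 0) * (if F.l q y = b then (1:ℂ) else 0) =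
      if F.l p y = a ∧ F.l q y = b then 1 else 0 := by
    intro y
    by_cases h : F.l p y = a
    · have h2 : a = F.l p y := h.symm
      by_cases h' : F.l q y = b
      · rw [if_pos h2, if_pos h', if_pos ⟨h, h'⟩]; ring
      · have h3 : ¬ (F.l p y = a ∧ F.l q y = b) := fun hh => h' hh.2
        rw [if_neg h', if_neg h3]; ring
    · have h2 : ¬ (a = F.l p y) := fun hh => h hh.symm
      have h3 : ¬ (F.l p y = a ∧ F.l q y = b) := fun hh => h hh.1
      rw [if_neg h2, if_neg h3]; ring
  simp only [h1]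
  rw [Finset.sum_boole]
  by_cases hpq : p = q
  · subst hpq
    rw [if_pos rfl]
    by_cases hab : a = b
    · subst hab
      rw [if_pos rfl]
      simp only [and_self]
      rw [F.fib1]; push_cast; ring
    · rw [if_neg hab]
      rw [Finset.filter_false_of_mem]
      · simp
      · rintro y _ ⟨h, h'⟩
        exact hab (h.symm.trans h')
  · rw [if_neg hpq, F.fib2 p q hpq]

lemma Frame.inner (F : Frame V P) (p q : P) (a b : ZMod 3) (c e c' e' : ℂ) :
    ∑ y, (c + e * (if a = F.l p y then (1:ℂ) else 0)) * (c' + e' * (if F.l q y = b then (1:ℂ) else 0)) =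
      9 * F.μ * (c * c') + 3 * F.μ * (c * e' + e * c') +
        e * e' * (if p = q then (if a = b then 3 * (F.μ : ℂ) else 0) else F.μ) := by
  have h1 : ∀ y, (c + e * (if a = F.l p y then (1:ℂ) else 0)) *
      (c' + e' * (if F.l q y = b then (1:ℂ) else 0)) =
      c * c' + c * e' * (if F.l q y = b then (1:ℂ) else 0) +
        e * c' * (if a = F.l p y then (1:ℂ) else 0) +
        e * e' * ((if a = F.l p y then (1:ℂ) else 0) * (if F.l q y = b then (1:ℂ) else 0)) := by
    intro y; ring
  simp only [h1, Finset.sum_add_distrib, ← Finset.mul_sum, F.sum1, F.sum1', F.sum2]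
  simp only [Finset.sum_const, Finset.card_univ, F.cardV, nsmul_eq_mul]
  push_cast; ring

/-- The wiring of the cells: `q i` is a bijection from the cells `j` with `ε i j ≠ 0` to the set of
parallel classes. -/
structure Wiring (F : Frame V P) (M : Type) [Fintype M] [DecidableEq M] where
  q : Cell M → Cell M → P
  bij : ∀ i, Set.BijOn (q i) {j | ee i j ≠ 0} Set.univ
  hm : 4 * Fintype.card M + 7 = 9 * F.μ

variable {F : Frame V P} (W : Wiring F M)

lemma ee_sq (i j : Cell M) : ee i j * ee i j = if ee i j ≠ 0 then 1 else 0 := by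
  rcases i with i | i <;> rcases j with j | j
  · simp only [ee]; split_ifs <;> simp_all
  · simp [ee]
  · simp [ee]
  · simp only [ee]; split_ifs <;> simp_all

lemma Wiring.sum_bij (i : Cell M) (f : P → ℂ) :
    ∑ j, ee i j * ee i j * f (W.q i j) = ∑ p, f p := by
  classical
  have h1 : ∀ j, ee i j * ee i j * f (W.q i j) = if ee i j ≠ 0 then f (W.q i j) else 0 := by
    intro j; rw [ee_sq]; split_ifs <;> simp
  simp only [h1]
  rw [← Finset.sum_filter]
  refine Finset.sum_nbij (W.q i) (fun _ _ => Finset.mem_univ _) ?_ ?_ (fun _ _ => rfl)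
  · have := (W.bij i).injOn
    intro a ha b hb hab
    exact this (by simpa using ha) (by simpa using hb) hab
  · intro p _
    obtain ⟨j, hj, hjp⟩ := (W.bij i).surjOn (Set.mem_univ p)
    exact ⟨j, by simpa using hj, hjp⟩

/-- The adjacency matrix -/
noncomputable def Wiring.A : Matrix (Cell M × V) (Cell M × V) ℂ :=
  Matrix.of fun x y => cc x.1 y.1 +
    ee x.1 y.1 * (if F.l (W.q x.1 y.1) x.2 = F.l (W.q y.1 x.1) y.2 then 1 else 0)

lemma Wiring.A_apply (i j : Cell M) (x y : V) : W.A (i, x) (j, y) = cc i j +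
    ee i j * (if F.l (W.q i j) x = F.l (W.q j i) y then 1 else 0) := rfl

lemma Wiring.A_symm (x y : Cell M × V) : W.A x y = W.A y x := by
  obtain ⟨i, x⟩ := x
  obtain ⟨j, y⟩ := y
  rw [W.A_apply, W.A_apply, cc_symm i j, ee_symm i j]
  congr 2
  simp only [eq_comm]

lemma Wiring.A_01 (x y : Cell M × V) : W.A x y = 0 ∨ W.A x y = 1 := by
  obtain ⟨i, x⟩ := x
  obtain ⟨j, y⟩ := y
  rw [W.A_apply]
  rcases i with i | i <;> rcases j with j | j <;> simp only [cc, ee] <;> split_ifs <;> simp

lemma Wiring.A_diag (x : Cell M × V) : W.A x x = 0 := by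
  obtain ⟨i, x⟩ := x
  rw [W.A_apply]
  rcases i with i | i
  · simp [cc, ee]
  · simp only [cc, ee]
    rw [if_neg (tw_ne i).symm]
    simp

lemma Wiring.cast_hm (W : Wiring F M) : (4 * Fintype.card M + 7 : ℂ) = 9 * F.μ := by
  exact_mod_cast W.hm

lemma Wiring.row_sum (i j : Cell M) (x : V) : ∑ y, W.A (i, x) (j, y) = 3 * F.μ * ww i j := by
  simp only [W.A_apply, Finset.sum_add_distrib, ← Finset.mul_sum, F.sum1']
  simp only [Finset.sum_const, Finset.card_univ, F.cardV, nsmul_eq_mul, ww]
  push_cast; ring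

lemma Wiring.ne_of (i j k : Cell M) (hik : i ≠ k) (h1 : ee j i ≠ 0) (h2 : ee j k ≠ 0) :
    W.q j i ≠ W.q j k := fun h => hik ((W.bij j).injOn h1 h2 h)

lemma Wiring.A_mul_A : W.A * W.A = (3 * (F.μ:ℂ)) ^ 2 • (1 : Matrix _ _ ℂ) +
    (F.μ * (2 * Fintype.card M + 2) : ℂ) • Matrix.of (fun x y : Cell M × V => gg x.1 * gg y.1) := by
  ext x z
  obtain ⟨i, x⟩ := x
  obtain ⟨k, z⟩ := z
  simp only [Matrix.mul_apply, Matrix.add_apply, Matrix.smul_apply, Matrix.of_apply, smul_eq_mul]
  rw [Fintype.sum_prod_type]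
  simp only [W.A_apply]
  simp only [F.inner]
  by_cases hik : i = k
  · subst hik
    have h1 : ∀ j, 9 * (F.μ:ℂ) * (cc i j * cc j i) + 3 * F.μ * (cc i j * ee j i + ee i j * cc j i) +
        ee i j * ee j i * (if W.q j i = W.q j i then (if F.l (W.q i j) x = F.l (W.q i j) z then
          3 * (F.μ:ℂ) else 0) else F.μ) = 3 * F.μ * (3 * cc i j * cc i j + 2 * cc i j * ee i j) +
        3 * F.μ * (ee i j * ee i j * (if F.l (W.q i j) x = F.l (W.q i j) z then 1 else 0)) := by
      intro j
      rw [cc_symm j i, ee_symm j i, if_pos rfl]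
      split_ifs <;> ring
    rw [Finset.sum_congr rfl fun j _ => h1 j]
    simp only [Finset.sum_add_distrib, ← Finset.mul_sum]
    have hsd := sum_diag i
    rw [Finset.sum_add_distrib] at hsd
    rw [hsd]
    rw [W.sum_bij i (fun p => if F.l p x = F.l p z then 1 else 0)]
    rw [Finset.sum_boole]
    have hm := W.cast_hm
    by_cases hxz : x = z
    · subst hxz
      have hP : (2 * Fintype.card P + 1 : ℂ) = 9 * F.μ := by exact_mod_cast F.cardP
      have h2 : (#{p | F.l p x = F.l p x} : ℂ) = Fintype.card P := by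
        simp
      rw [h2, Matrix.one_apply_eq]
      have hP' : (Fintype.card P : ℂ) = (9 * F.μ - 1) / 2 := by
        rw [← hP]; ring
      have hM' : (Fintype.card M : ℂ) = (9 * F.μ - 7) / 4 := by
        rw [← hm]; ring
      rw [hP', hM']
      ring
    · have hP : (2 * #{p | F.l p x = F.l p z} + 1 : ℂ) = 3 * F.μ := by
        exact_mod_cast F.agree x z hxz
      have hne : ((i, x) : Cell M × V) ≠ (i, z) := by
        intro h; exact hxz (Prod.mk.inj h).2
      rw [Matrix.one_apply_ne hne]
      have hP' : (#{p | F.l p x = F.l p z} : ℂ) = (3 * F.μ - 1) / 2 := by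
        rw [← hP]; ring
      have hM' : (Fintype.card M : ℂ) = (9 * F.μ - 7) / 4 := by
        rw [← hm]; ring
      rw [hP', hM']
      ring
  · have hne : ((i, x) : Cell M × V) ≠ (k, z) := by
      intro h; exact hik (Prod.mk.inj h).1
    rw [Matrix.one_apply_ne hne]
    have h1 : ∀ j, 9 * (F.μ:ℂ) * (cc i j * cc j k) + 3 * F.μ * (cc i j * ee j k + ee i j * cc j k) +
        ee i j * ee j k * (if W.q j i = W.q j k then (if F.l (W.q i j) x = F.l (W.q k j) z then
          3 * (F.μ:ℂ) else 0) else F.μ) = F.μ * (ww i j * ww j k) := by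
      intro j
      by_cases h2 : ee i j * ee j k = 0
      · rw [h2]
        have : F.μ * (ww i j * ww j k) = 9 * (F.μ:ℂ) * (cc i j * cc j k) +
          3 * F.μ * (cc i j * ee j k + ee i j * cc j k) + F.μ * (ee i j * ee j k) := by
          simp only [ww]; ring
        rw [this, h2]; ring
      · rw [if_neg]
        · simp only [ww]; ring
        · apply W.ne_of i j k hik
          · rw [ee_symm]; exact left_ne_zero_of_mul h2
          · exact right_ne_zero_of_mul h2
    rw [Finset.sum_congr rfl fun j _ => h1 j]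
    rw [← Finset.mul_sum, sum_ww i k hik]
    ring

lemma Wiring.A_mulVec : W.A *ᵥ (fun x => gg x.1) =
    (3 * F.μ * (4 * Fintype.card M + 3) : ℂ) • (fun x : Cell M × V => gg x.1) := by
  ext x
  obtain ⟨i, x⟩ := x
  simp only [Matrix.mulVec, dotProduct, Pi.smul_apply, smul_eq_mul]
  rw [Fintype.sum_prod_type]
  simp only [← Finset.sum_mul, W.row_sum]
  have := sum_ww_gg i
  calc ∑ j, 3 * (F.μ:ℂ) * ww i j * gg j = 3 * F.μ * ∑ j, ww i j * gg j := by
        rw [Finset.mul_sum]; refine Finset.sum_congr rfl fun j _ => ?_; ring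
    _ = _ := by rw [this]; ring

/-- The graph. -/
noncomputable def Wiring.graph : SimpleGraph (Cell M × V) where
  Adj x y := W.A x y = 1
  symm := ⟨fun x y h => by rw [W.A_symm]; exact h⟩
  loopless := ⟨fun x h => by rw [W.A_diag] at h; exact zero_ne_one h⟩

end Pool.Agent.Hhelper39.CoherentRank
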