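import Pool.Agent.Hhelper39.CohRank

set_option linter.unusedSimpArgs false
set_option linter.unusedSectionVars false
set_option linter.unusedDecidableInType false
set_option linter.unusedFintypeInType false

open Matrix Finset

namespace Pool.Agent.Hhelper39.CoherentRank

/-- points (and functionals) -/
abbrev Pt (n : ℕ) : Type := (Fin 3 ⊕ Fin n) → ZMod 3

/-- an injective numbering of the points -/
noncomputable def num {n : ℕ} (v : Pt n) : ℕ := (Fintype.equivFin (Pt n) v : ℕ)

lemma num_inj {n : ℕ} : Function.Injective (num (n := n)) := by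
  intro a b h
  exact (Fintype.equivFin (Pt n)).injective (Fin.ext h)

/-- parallel classes: one functional from each pair `±v`, `v ≠ 0`. -/
abbrev Cls (n : ℕ) : Type := {v : Pt n // num v < num (-v)}

lemma neg_ne_self {n : ℕ} (v : Pt n) (hv : v ≠ 0) : -v ≠ v := by
  intro h
  apply hv
  ext i
  have := congrFun h i
  simp only [Pi.neg_apply] at this
  rw [Pi.zero_apply]
  generalize v i = a at this
  revert a; decide

lemma Cls.ne_zero {n : ℕ} (p : Cls n) : p.1 ≠ 0 := by
  intro h
  have := p.2
  rw [h] at this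
  simp at this

lemma exists_cls {n : ℕ} (v : Pt n) (hv : v ≠ 0) : ∃ p : Cls n, p.1 = v ∨ p.1 = -v := by
  rcases lt_trichotomy (num v) (num (-v)) with h | h | h
  · exact ⟨⟨v, h⟩, Or.inl rfl⟩
  · exact absurd (num_inj h).symm (neg_ne_self v hv)
  · exact ⟨⟨-v, by rw [neg_neg]; exact h⟩, Or.inr rfl⟩

lemma Cls.ne_neg {n : ℕ} (p q : Cls n) : q.1 ≠ -p.1 := by
  intro h
  have h1 := q.2
  have h2 := p.2
  rw [h, neg_neg] at h1
  omega

/-- counting with even predicates -/
lemma half_count {n : ℕ} (Q : Pt n → Prop) [DecidablePred Q] (hQ : ∀ v, Q (-v) ↔ Q v) (h0 : Q 0) :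
    2 * #{p : Cls n | Q p.1} + 1 = #{v : Pt n | Q v} := by
  classical
  have h1 : #{p : Cls n | Q p.1} = #{v : Pt n | Q v ∧ num v < num (-v)} := by
    refine Finset.card_nbij Subtype.val ?_ ?_ ?_
    · intro p hp
      rw [Finset.mem_coe, Finset.mem_filter] at hp ⊢
      exact ⟨Finset.mem_univ _, hp.2, p.2⟩
    · intro a _ b _ h
      exact Subtype.ext h
    · intro v hv
      rw [Finset.mem_coe, Finset.mem_filter] at hv
      exact ⟨⟨v, hv.2.2⟩, by simpa using hv.2.1, rfl⟩
  have h2 : #{v : Pt n | Q v ∧ num (-v) < num v} = #{v : Pt n | Q v ∧ num v < num (-v)} := by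
    refine Finset.card_nbij (fun v => -v) ?_ ?_ ?_
    · intro v hv
      rw [Finset.mem_coe, Finset.mem_filter] at hv ⊢
      rw [neg_neg]
      exact ⟨Finset.mem_univ _, (hQ v).mpr hv.2.1, hv.2.2⟩
    · intro a _ b _ h
      exact neg_injective h
    · intro v hv
      rw [Finset.mem_coe, Finset.mem_filter] at hv
      refine ⟨-v, ?_, neg_neg v⟩
      rw [Finset.mem_coe, Finset.mem_filter]
      refine ⟨Finset.mem_univ _, (hQ v).mpr hv.2.1, ?_⟩
      rw [neg_neg]; exact hv.2.2
  have h3 : #{v : Pt n | Q v ∧ num v = num (-v)} = 1 := by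
    rw [Finset.card_eq_one]
    refine ⟨0, ?_⟩
    ext v
    simp only [Finset.mem_filter, Finset.mem_univ, true_and, Finset.mem_singleton]
    constructor
    · rintro ⟨-, h⟩
      by_contra hv
      exact neg_ne_self v hv (num_inj h).symm
    · rintro rfl
      exact ⟨h0, by simp⟩
  have h4 : ({v : Pt n | Q v} : Finset (Pt n)) = ({v : Pt n | Q v ∧ num v < num (-v)} : Finset (Pt n)) ∪
      (({v : Pt n | Q v ∧ num (-v) < num v} : Finset (Pt n)) ∪
        ({v : Pt n | Q v ∧ num v = num (-v)} : Finset (Pt n))) := by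
    ext v
    simp only [Finset.mem_filter, Finset.mem_univ, true_and, Finset.mem_union]
    constructor
    · intro h
      rcases lt_trichotomy (num v) (num (-v)) with h' | h' | h'
      · exact Or.inl ⟨h, h'⟩
      · exact Or.inr (Or.inr ⟨h, h'⟩)
      · exact Or.inr (Or.inl ⟨h, h'⟩)
    · rintro (h | h | h) <;> exact h.1
  rw [h4, Finset.card_union_of_disjoint, Finset.card_union_of_disjoint, h1, h2, h3]
  · ring
  · rw [Finset.disjoint_left]
    intro v h h'
    simp only [Finset.mem_filter, Finset.mem_univ, true_and] at h h'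
    omega
  · rw [Finset.disjoint_left]
    intro v h h'
    simp only [Finset.mem_filter, Finset.mem_univ, true_and, Finset.mem_union] at h h'
    omega

lemma balance {V : Type} [Fintype V] [DecidableEq V] [AddCommGroup V] (S : Finset V)
    (φ : V → ZMod 3) (u : V) (a : ZMod 3) (ha : a ≠ 0) (hS : ∀ x, x ∈ S ↔ x + u ∈ S)
    (hφ : ∀ x, φ (x + u) = φ x + a) (c : ZMod 3) : 3 * #{x ∈ S | φ x = c} = #S := by
  classical
  have h1 : ∀ c, #{x ∈ S | φ x = c} = #{x ∈ S | φ x = c + a} := by
    intro c
    refine Finset.card_nbij (fun x => x + u) ?_ ?_ ?_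
    · intro x hx
      rw [Finset.mem_coe, Finset.mem_filter] at hx ⊢
      exact ⟨(hS x).mp hx.1, by rw [hφ, hx.2]⟩
    · intro x _ y _ h
      exact add_right_cancel h
    · intro x hx
      rw [Finset.mem_coe, Finset.mem_filter] at hx
      refine ⟨x - u, ?_, by simp⟩
      rw [Finset.mem_coe, Finset.mem_filter]
      refine ⟨(hS _).mpr (by simpa using hx.1), ?_⟩
      have := hφ (x - u)
      rw [sub_add_cancel, hx.2] at this
      exact (add_right_cancel this).symm
  have h2 : ∀ c c', #{x ∈ S | φ x = c'} = #{x ∈ S | φ x = c} := by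
    intro c c'
    have h3 : c' = c ∨ c' = c + a ∨ c' = c + a + a := by
      revert ha; clear hφ h1; revert a c c'; decide
    rcases h3 with rfl | rfl | rfl
    · rfl
    · rw [← h1]
    · rw [← h1, ← h1]
  have h4 := Finset.card_eq_sum_card_fiberwise (s := S) (f := φ) (t := Finset.univ)
    (fun x _ => Finset.mem_coe.mpr (Finset.mem_univ _))
  rw [h4, Finset.sum_congr rfl fun c' _ => h2 c c']
  simp

end Pool.Agent.Hhelper39.CoherentRank
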