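import Pool.Agent.Hhelper39.CohDesign

set_option linter.unusedSimpArgs false
set_option linter.unusedSectionVars false
set_option linter.unusedDecidableInType false
set_option linter.unusedFintypeInType false

open Matrix Finset

namespace Pool.Agent.Hhelper39.CoherentRank

/-- index set of the twin pairs: junk pairs, targets, sources (`h` of them for the target `h`), rest -/
abbrev Idx (N R : ℕ) : Type := Fin 6 ⊕ (Fin N ⊕ ((Σ h : Fin N, Fin h) ⊕ Fin R))

/-- the prescribed part of the set `S i` -/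
def GG {N R : ℕ} : Idx N R → Finset (Idx N R × Bool)
  | .inr (.inr (.inl x)) => {(.inr (.inl x.1), false)}
  | _ => ∅

/-- the pool from which the rest of `S i` is chosen -/
def pool {N R : ℕ} (a : Idx N R) : Finset (Idx N R × Bool) :=
  ((Finset.univ : Finset (Fin 6 × Bool)).image (fun x => ((Sum.inl x.1 : Idx N R), x.2))).filter
    (fun x => x.1 ≠ a)

lemma GG_ne {N R : ℕ} (a : Idx N R) (x : Idx N R × Bool) (hx : x ∈ GG a) : x.1 ≠ a := by
  rcases a with a | a | a | a
  · simp [GG] at hx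
  · simp [GG] at hx
  · simp only [GG, Finset.mem_singleton] at hx
    rw [hx]; simp
  · simp [GG] at hx

lemma card_GG_le {N R : ℕ} (a : Idx N R) : #(GG a) ≤ 9 := by
  rcases a with a | a | a | a <;> simp [GG]

lemma pool_card {N R : ℕ} (a : Idx N R) : 9 ≤ #(pool a) := by
  have hinj : Function.Injective (fun x : Fin 6 × Bool => ((Sum.inl x.1 : Idx N R), x.2)) := by
    intro x y h
    simp only [Prod.mk.injEq, Sum.inl.injEq] at h
    exact Prod.ext h.1 h.2
  rw [pool, Finset.filter_image, Finset.card_image_of_injective _ hinj]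
  rcases a with c | a
  · have : (Finset.univ.filter (fun x : Fin 6 × Bool => (Sum.inl x.1 : Idx N R) ≠ Sum.inl c)) =
        Finset.univ.filter (fun x : Fin 6 × Bool => x.1 ≠ c) := by
      ext x; simp
    rw [this]
    clear this hinj
    revert c; decide
  · have : (Finset.univ.filter (fun x : Fin 6 × Bool => (Sum.inl x.1 : Idx N R) ≠ Sum.inr a)) =
        Finset.univ := by
      ext x; simp
    rw [this]
    decide

lemma mem_pool {N R : ℕ} (a : Idx N R) (x : Idx N R × Bool) (hx : x ∈ pool a) :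
    x.1 ≠ a ∧ ∃ c, x.1 = Sum.inl c := by
  classical
  rw [pool, Finset.mem_filter, Finset.mem_image] at hx
  obtain ⟨⟨c, -, rfl⟩, h⟩ := hx
  exact ⟨h, c.1, rfl⟩

/-- the target cells -/
def tgt {N R : ℕ} (h : Fin N) : Idx N R × Bool := (Sum.inr (Sum.inl h), false)

open Classical in
lemma exists_S (N R : ℕ) : ∃ S : Idx N R × Bool → Finset (Idx N R × Bool),
    (∀ i, #(S i) = 9) ∧ (∀ i, i ∉ S i) ∧ (∀ i, tw i ∉ S i) ∧
    ∀ h : Fin N, #{i | tgt h ∈ S i} = 2 * h := by
  have h1 : ∀ i : Idx N R × Bool, ∃ u, GG i.1 ⊆ u ∧ u ⊆ GG i.1 ∪ pool i.1 ∧ #u = 9 := by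
    intro i
    refine Finset.exists_subsuperset_card_eq Finset.subset_union_left (card_GG_le _) ?_
    exact (pool_card i.1).trans (Finset.card_le_card Finset.subset_union_right)
  choose S hS1 hS2 hS3 using h1
  have hne : ∀ i x, x ∈ S i → x.1 ≠ i.1 := by
    intro i x hx
    rcases Finset.mem_union.mp (hS2 i hx) with h | h
    · exact GG_ne _ _ h
    · exact (mem_pool _ _ h).1
  refine ⟨S, hS3, fun i h => hne i i h rfl, fun i h => hne i (tw i) h rfl, ?_⟩
  intro h
  have h2 : ∀ i : Idx N R × Bool, tgt h ∈ S i ↔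
      ∃ j : Fin h, i.1 = Sum.inr (Sum.inr (Sum.inl ⟨h, j⟩)) := by
    intro i
    have h3 : tgt h ∈ S i ↔ tgt h ∈ GG i.1 := by
      constructor
      · intro h4
        rcases Finset.mem_union.mp (hS2 i h4) with h5 | h5
        · exact h5
        · obtain ⟨-, c, hc⟩ := mem_pool _ _ h5
          cases hc
      · intro h4; exact hS1 i h4
    rw [h3, tgt]
    obtain ⟨i, b⟩ := i
    rcases i with a | a | a | a
    · simp [GG]
    · simp [GG]
    · obtain ⟨h', j⟩ := a
      simp only [GG, Finset.mem_singleton, Prod.mk.injEq, Sum.inr.injEq, Sum.inl.injEq, and_true]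
      constructor
      · rintro rfl; exact ⟨j, rfl⟩
      · rintro ⟨j', hj'⟩
        exact (congrArg Sigma.fst hj').symm
    · simp [GG]
  simp only [h2]
  have h6 : ({i | ∃ j : Fin h, i.1 = Sum.inr (Sum.inr (Sum.inl ⟨h, j⟩))} : Finset (Idx N R × Bool)) =
      (Finset.univ : Finset (Fin h × Bool)).image
        (fun x => ((Sum.inr (Sum.inr (Sum.inl ⟨h, x.1⟩)) : Idx N R), x.2)) := by
    ext ⟨i, b⟩
    simp only [Finset.mem_filter, Finset.mem_univ, true_and, Finset.mem_image]
    constructor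
    · rintro ⟨j, rfl⟩
      exact ⟨(j, b), rfl⟩
    · rintro ⟨⟨j, b'⟩, h⟩
      exact ⟨j, (congrArg Prod.fst h).symm⟩
  rw [h6, Finset.card_image_of_injective]
  · simp [mul_comm]
  · intro x y hxy
    simp only [Prod.mk.injEq, Sum.inr.injEq, Sum.inl.injEq, Sigma.mk.injEq, heq_eq_eq, true_and] at hxy
    exact Prod.ext hxy.1 hxy.2

lemma exists_params (c : ℕ) : ∃ n R : ℕ, 4 * (c + R) + 7 = 9 * 3 ^ (n + 1) := by
  have h1 : c < 9 ^ c := Nat.lt_pow_self (by norm_num)
  have h2 : 9 ^ c % 4 = 1 := by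
    rw [Nat.pow_mod]; norm_num
  have h3 : 9 * 3 ^ (2 * c + 1) = 27 * 9 ^ c := by
    rw [pow_succ, pow_mul]; norm_num; ring
  refine ⟨2 * c, (27 * 9 ^ c - 7) / 4 - c, ?_⟩
  rw [h3]
  omega

theorem main (N : ℕ) : ∃ (X : Type) (_ : Fintype X) (_ : DecidableEq X) (Γ : SimpleGraph X)
    (_ : DecidableRel Γ.Adj), InG3 Γ ∧ N ≤ coherentRank Γ := by
  classical
  obtain ⟨n, R, hnR⟩ := exists_params (6 + N + Fintype.card (Σ h : Fin N, Fin h))
  obtain ⟨S, hS, hS1, hS2, hS3⟩ := exists_S N R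
  have hm : 4 * Fintype.card (Idx N R) + 7 = 9 * 3 ^ (n + 1) := by
    rw [← hnR]
    simp only [Idx, Fintype.card_sum, Fintype.card_fin]
    ring
  obtain ⟨D, hD⟩ := exists_design n hm S hS hS1 hS2
  refine ⟨Cell (Idx N R) × Pt n, _, _, D.graph, Classical.decRel _, D.inG3, ?_⟩
  have hD' : ∀ h : Fin N, D.deg (tgt h) = 2 * h := by
    intro h
    rw [hD, ← hS3 h]
    congr!
  refine D.rank_ge (fun h => tgt h) ?_
  intro a b hab
  simp only [hD'] at hab
  exact Fin.ext (by omega)

end Pool.Agent.Hhelper39.CoherentRank
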