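import Pool.Agent.Hhelper39.CohG3

set_option linter.unusedSimpArgs false
set_option linter.unusedSectionVars false
set_option linter.unusedDecidableInType false
set_option linter.unusedFintypeInType false

open Matrix Finset

namespace Pool.Agent.Hhelper39.CoherentRank

variable {V P : Type} [Fintype V] [Fintype P] [DecidableEq V] [DecidableEq P]
variable {M : Type} [Fintype M] [DecidableEq M]

/-- Wirings in which the four type I classes of every type II cell are the same four classes
`sp 0, …, sp 3`, and `L` is the set of classes which are unions of blocks of their common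
refinement. -/
structure Design (F : Frame V P) (M : Type) [Fintype M] [DecidableEq M] extends Wiring F M where
  sp : Fin 4 → P
  L : Finset P
  ζ : ℕ
  ζpos : 0 < ζ
  q_sp : ∀ (i : M × Bool) (j : Fin 4), q (Sum.inr i) (Sum.inl j) = sp j
  q_self : ∀ i : M × Bool, q (Sum.inr i) (Sum.inr i) ∉ L
  cardZ : ∀ u, #{y | ∀ j, F.l (sp j) u = F.l (sp j) y} = ζ
  hL : ∀ p ∈ L, ∀ u y, (∀ j, F.l (sp j) u = F.l (sp j) y) → F.l p u = F.l p y
  hnL : ∀ p, p ∉ L → ∀ u c, 3 * #{y | (∀ j, F.l (sp j) u = F.l (sp j) y) ∧ F.l p y = c} = ζ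

variable {F : Frame V P} (D : Design F M)

/-- indicator of type II cells -/
def dd : Cell M → ℂ
  | .inl _ => 0
  | .inr _ => 1

lemma dd_mem {S : Subalgebra ℂ (Matrix (Cell M × V) (Cell M × V) ℂ)} (hS : IsCoherentAlgebra S)
    (W : Wiring F M) (hA : W.A ∈ S) : Matrix.diagonal (fun x : Cell M × V => dd x.1) ∈ S := by
  classical
  have h1 : (W.A * W.A) ⊙ (1 : Matrix (Cell M × V) (Cell M × V) ℂ) ∈ S :=
    hS.hadamard_mem _ (S.mul_mem hA hA) _ S.one_mem
  set t : ℂ := F.μ * (2 * Fintype.card M + 2) with ht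
  have ht0 : t ≠ 0 := mul_ne_zero F.mu_ne (card_ne (M := M))
  have h2 := map_mem hS h1 (fun z => if z = (3 * (F.μ:ℂ)) ^ 2 + t * 4 then 1 else 0)
  have h3 : (3 * (F.μ:ℂ)) ^ 2 + t * 4 ≠ 0 := by
    rw [ht]
    have : (((3 * F.μ) ^ 2 + (F.μ * (2 * Fintype.card M + 2)) * 4 : ℕ) : ℂ) ≠ 0 := by
      have := F.μpos
      have h4 : (3 * F.μ) ^ 2 + (F.μ * (2 * Fintype.card M + 2)) * 4 ≠ 0 := by positivity
      exact_mod_cast h4
    push_cast at this
    exact this
  have hdiag : ∀ x, ((W.A * W.A) ⊙ (1 : Matrix (Cell M × V) (Cell M × V) ℂ)) x x =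
      (3 * (F.μ:ℂ)) ^ 2 + t * (gg x.1 * gg x.1) := by
    intro x
    rw [Matrix.hadamard_apply, Matrix.one_apply_eq, W.A_mul_A]
    simp only [Matrix.add_apply, Matrix.smul_apply, Matrix.one_apply_eq, Matrix.of_apply,
      smul_eq_mul, mul_one]
    rfl
  have hoff : ∀ x y, x ≠ y →
      ((W.A * W.A) ⊙ (1 : Matrix (Cell M × V) (Cell M × V) ℂ)) x y = 0 := by
    intro x y hxy
    rw [Matrix.hadamard_apply, Matrix.one_apply_ne hxy, mul_zero]
  convert h2 using 1
  ext x y
  rw [Matrix.map_apply]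
  by_cases hxy : x = y
  · subst hxy
    rw [Matrix.diagonal_apply_eq, hdiag]
    rcases x with ⟨i | i, x⟩
    · simp only [dd, gg]
      rw [if_neg]
      intro h
      have : t * 3 = 0 := by linear_combination -h
      apply ht0; simpa using this
    · simp only [dd, gg]
      rw [if_pos]
      ring
  · rw [Matrix.diagonal_apply_ne _ hxy, hoff x y hxy]
    rw [if_neg (Ne.symm h3)]

/-- `K`: same type II cell and agreement on the four special classes. -/
noncomputable def Design.K : Matrix (Cell M × V) (Cell M × V) ℂ :=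
  Matrix.of fun x z => if x.1 = z.1 ∧ (∃ i, x.1 = Sum.inr i) ∧
    ∀ j, F.l (D.sp j) x.2 = F.l (D.sp j) z.2 then 1 else 0

lemma q_inl_inj (W : Wiring F M) (j : Fin 4) (i k : M × Bool)
    (h : W.q (Sum.inl j) (Sum.inr i) = W.q (Sum.inl j) (Sum.inr k)) : i = k := by
  by_contra hik
  refine W.ne_of (Sum.inr i) (Sum.inl j) (Sum.inr k) ?_ ?_ ?_ h
  · simpa using hik
  · simp [ee]
  · simp [ee]

lemma Design.EE_apply (i k : M × Bool) (x z : V) :
    (D.A * Matrix.diagonal (fun x : Cell M × V => 1 - dd x.1) * D.A) (Sum.inr i, x) (Sum.inr k, z) =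
      if i = k then 3 * F.μ * (#{j | F.l (D.sp j) x = F.l (D.sp j) z} : ℂ) else 4 * F.μ := by
  rw [Matrix.mul_apply]
  simp only [Matrix.mul_diagonal]
  rw [Fintype.sum_prod_type]
  simp only [Fintype.sum_sum_type, dd, sub_self, mul_zero, zero_mul, Finset.sum_const_zero,
    add_zero, sub_zero, mul_one]
  simp only [Wiring.A_apply]
  simp only [F.inner]
  simp only [cc, ee, mul_zero, zero_mul, add_zero, mul_one, zero_add, one_mul]
  by_cases hik : i = k
  · subst hik
    simp only [if_true, D.q_sp]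
    rw [← Finset.sum_boole, Finset.mul_sum]
    refine Finset.sum_congr rfl fun j _ => ?_
    split_ifs <;> simp
  · rw [if_neg hik]
    have : ∀ j : Fin 4, ¬ (D.q (Sum.inl j) (Sum.inr i) = D.q (Sum.inl j) (Sum.inr k)) :=
      fun j h => hik (q_inl_inj D.toWiring j i k h)
    simp only [this, if_false]
    simp

lemma Design.K_mem {S : Subalgebra ℂ (Matrix (Cell M × V) (Cell M × V) ℂ)}
    (hS : IsCoherentAlgebra S) (hA : D.A ∈ S) : D.K ∈ S := by
  classical
  have hd := dd_mem hS D.toWiring hA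
  have hd' : Matrix.diagonal (fun x : Cell M × V => 1 - dd x.1) ∈ S := by
    have : Matrix.diagonal (fun x : Cell M × V => 1 - dd x.1) =
        1 - Matrix.diagonal (fun x : Cell M × V => dd x.1) := by
      ext x y
      by_cases hxy : x = y
      · subst hxy; simp
      · simp [Matrix.diagonal_apply_ne _ hxy, Matrix.one_apply_ne hxy]
    rw [this]
    exact S.sub_mem S.one_mem hd
  have hE : Matrix.diagonal (fun x : Cell M × V => dd x.1) *
      (D.A * Matrix.diagonal (fun x : Cell M × V => 1 - dd x.1) * D.A) *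
      Matrix.diagonal (fun x : Cell M × V => dd x.1) ∈ S :=
    S.mul_mem (S.mul_mem hd (S.mul_mem (S.mul_mem hA hd') hA)) hd
  have h2 := map_mem hS hE (fun z => if z = 12 * (F.μ:ℂ) then 1 else 0)
  convert h2 using 1
  have hμ := F.mu_ne
  have h12 : (12 * (F.μ:ℂ)) ≠ 0 := mul_ne_zero (by norm_num) hμ
  ext x z
  obtain ⟨i, x⟩ := x
  obtain ⟨k, z⟩ := z
  simp only [Matrix.map_apply, Matrix.mul_diagonal, Matrix.diagonal_mul]
  rcases i with i | i
  · simp only [Design.K, Matrix.of_apply, dd, zero_mul]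
    rw [if_neg, if_neg (Ne.symm h12)]
    rintro ⟨-, ⟨i', hi'⟩, -⟩
    cases hi'
  · rcases k with k | k
    · simp only [Design.K, Matrix.of_apply, dd, mul_zero]
      rw [if_neg, if_neg (Ne.symm h12)]
      rintro ⟨h, -, -⟩
      cases h
    · rw [D.EE_apply]
      simp only [Design.K, Matrix.of_apply, dd, one_mul, mul_one]
      by_cases hik : i = k
      · subst hik
        rw [if_pos rfl]
        by_cases hall : ∀ j, F.l (D.sp j) x = F.l (D.sp j) z
        · rw [if_pos ⟨rfl, ⟨i, rfl⟩, hall⟩, if_pos]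
          have : #{j : Fin 4 | F.l (D.sp j) x = F.l (D.sp j) z} = 4 := by
            rw [Finset.filter_true_of_mem (fun j _ => hall j)]; simp
          rw [this]; push_cast; ring
        · rw [if_neg (fun h => hall h.2.2), if_neg]
          intro h
          have h4 : (#{j : Fin 4 | F.l (D.sp j) x = F.l (D.sp j) z} : ℂ) = 4 := by
            have : (3 * F.μ : ℂ) * (#{j : Fin 4 | F.l (D.sp j) x = F.l (D.sp j) z} : ℂ) =
              (3 * F.μ : ℂ) * 4 := by rw [h]; ring
            exact mul_left_cancel₀ (mul_ne_zero (by norm_num) hμ) this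
          have h5 : #{j : Fin 4 | F.l (D.sp j) x = F.l (D.sp j) z} = 4 := by exact_mod_cast h4
          apply hall
          intro j
          have h6 : ({j : Fin 4 | F.l (D.sp j) x = F.l (D.sp j) z} : Finset (Fin 4)) = Finset.univ := by
            apply Finset.eq_univ_of_card
            rw [h5]; simp
          have := Finset.mem_univ j
          rw [← h6] at this
          simpa using this
      · rw [if_neg hik, if_neg, if_neg]
        · intro h
          have : (8 * (F.μ:ℂ)) = 0 := by linear_combination -h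
          apply hμ; simpa using this
        · rintro ⟨h, -, -⟩
          apply hik
          simpa using h

lemma Design.KA_inl (a : Fin 4) (u : V) (z : Cell M × V) : (D.K * D.A) (Sum.inl a, u) z = 0 := by
  rw [Matrix.mul_apply]
  refine Finset.sum_eq_zero fun y _ => ?_
  simp only [Design.K, Matrix.of_apply]
  rw [if_neg, zero_mul]
  rintro ⟨-, ⟨i', hi'⟩, -⟩
  cases hi'

lemma Design.KA_inr (i : M × Bool) (u : V) (k : M × Bool) (w : V) :
    (D.K * D.A) (Sum.inr i, u) (Sum.inr k, w) = D.ζ + ee (Sum.inr i) (Sum.inr k) *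
      #{y | (∀ j, F.l (D.sp j) u = F.l (D.sp j) y) ∧
        F.l (D.q (Sum.inr i) (Sum.inr k)) y = F.l (D.q (Sum.inr k) (Sum.inr i)) w} := by
  classical
  rw [Matrix.mul_apply, Fintype.sum_prod_type]
  rw [Finset.sum_eq_single (Sum.inr i)]
  · have h1 : ∀ y : V, D.K (Sum.inr i, u) (Sum.inr i, y) * D.A (Sum.inr i, y) (Sum.inr k, w) =
        (if ∀ j, F.l (D.sp j) u = F.l (D.sp j) y then (1:ℂ) else 0) + ee (Sum.inr i) (Sum.inr k) *
        (if (∀ j, F.l (D.sp j) u = F.l (D.sp j) y) ∧
        F.l (D.q (Sum.inr i) (Sum.inr k)) y = F.l (D.q (Sum.inr k) (Sum.inr i)) w then 1 else 0) := by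
      intro y
      rw [Wiring.A_apply]
      simp only [Design.K, Matrix.of_apply]
      by_cases h : ∀ j, F.l (D.sp j) u = F.l (D.sp j) y
      · rw [if_pos ⟨trivial, ⟨i, rfl⟩, h⟩, if_pos h]
        by_cases h' : F.l (D.q (Sum.inr i) (Sum.inr k)) y = F.l (D.q (Sum.inr k) (Sum.inr i)) w
        · rw [if_pos h', if_pos ⟨h, h'⟩]; simp [cc]
        · have h3 : ¬ ((∀ j, F.l (D.sp j) u = F.l (D.sp j) y) ∧
            F.l (D.q (Sum.inr i) (Sum.inr k)) y = F.l (D.q (Sum.inr k) (Sum.inr i)) w) :=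
              fun hh => h' hh.2
          rw [if_neg h', if_neg h3]; simp [cc]
      · have h2 : ¬ (True ∧ (∃ i', (Sum.inr i : Cell M) = Sum.inr i') ∧
          ∀ j, F.l (D.sp j) u = F.l (D.sp j) y) := fun hh => h hh.2.2
        have h3 : ¬ ((∀ j, F.l (D.sp j) u = F.l (D.sp j) y) ∧
            F.l (D.q (Sum.inr i) (Sum.inr k)) y = F.l (D.q (Sum.inr k) (Sum.inr i)) w) :=
              fun hh => h hh.1
        rw [if_neg h2, if_neg h, if_neg h3]; ring
    rw [Finset.sum_congr rfl fun y _ => h1 y]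
    rw [Finset.sum_add_distrib, ← Finset.mul_sum, Finset.sum_boole, Finset.sum_boole, D.cardZ]
  · intro j _ hj
    refine Finset.sum_eq_zero fun y _ => ?_
    simp only [Design.K, Matrix.of_apply]
    rw [if_neg, zero_mul]
    rintro ⟨h, -, -⟩
    exact hj h.symm
  · intro h; exact absurd (Finset.mem_univ _) h

/-- `B`: the entries of `K * A` equal to `ζ`. -/
noncomputable def Design.B : Matrix (Cell M × V) (Cell M × V) ℂ :=
  (D.K * D.A).map (fun z => if z = (D.ζ : ℂ) then 1 else 0)

lemma Design.B_mem {S : Subalgebra ℂ (Matrix (Cell M × V) (Cell M × V) ℂ)}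
    (hS : IsCoherentAlgebra S) (hA : D.A ∈ S) : D.B ∈ S :=
  map_mem hS (S.mul_mem (D.K_mem hS hA) hA) _

lemma Design.B_inr (i : M × Bool) (u : V) (k : M × Bool) (w : V) :
    D.B (Sum.inr i, u) (Sum.inr k, w) =
      if i = tw k then 1 else (if D.q (Sum.inr i) (Sum.inr k) ∈ D.L then
        D.A (Sum.inr i, u) (Sum.inr k, w) else 0) := by
  classical
  have hζ : (D.ζ : ℂ) ≠ 0 := by exact_mod_cast D.ζpos.ne'
  rw [Design.B, Matrix.map_apply, D.KA_inr]
  by_cases h1 : i = tw k
  · rw [if_pos h1]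
    have h2 : k = tw i := eq_tw_comm.mp h1
    have h3 : ee (Sum.inr i) (Sum.inr k) = (0:ℂ) := by simp only [ee]; rw [if_pos h2]
    rw [h3, zero_mul, add_zero, if_pos rfl]
  · rw [if_neg h1]
    have h2 : ¬ k = tw i := fun h => h1 (eq_tw_comm.mp h)
    have h3 : ee (Sum.inr i) (Sum.inr k) = (-1:ℂ) := by simp only [ee]; rw [if_neg h2]
    rw [h3]
    by_cases hq : D.q (Sum.inr i) (Sum.inr k) ∈ D.L
    · rw [if_pos hq]
      rw [Wiring.A_apply, h3]
      by_cases h4 : F.l (D.q (Sum.inr i) (Sum.inr k)) u = F.l (D.q (Sum.inr k) (Sum.inr i)) w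
      · rw [if_pos h4]
        have h5 : #{y | (∀ j, F.l (D.sp j) u = F.l (D.sp j) y) ∧
          F.l (D.q (Sum.inr i) (Sum.inr k)) y = F.l (D.q (Sum.inr k) (Sum.inr i)) w} = D.ζ := by
          rw [← D.cardZ u]
          congr 1
          ext y
          simp only [Finset.mem_filter, Finset.mem_univ, true_and]
          constructor
          · exact fun h => h.1
          · intro h
            exact ⟨h, by rw [← D.hL _ hq u y h, h4]⟩
        rw [h5, if_neg]
        · simp [cc]
        · intro h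
          apply hζ
          linear_combination -h
      · rw [if_neg h4]
        have h5 : #{y | (∀ j, F.l (D.sp j) u = F.l (D.sp j) y) ∧
          F.l (D.q (Sum.inr i) (Sum.inr k)) y = F.l (D.q (Sum.inr k) (Sum.inr i)) w} = 0 := by
          rw [Finset.card_eq_zero, Finset.filter_eq_empty_iff]
          rintro y - ⟨h, h'⟩
          exact h4 (by rw [D.hL _ hq u y h, h'])
        rw [h5, if_pos]
        · simp [cc]
        · simp
    · rw [if_neg hq, if_neg]
      have h5 := D.hnL _ hq u (F.l (D.q (Sum.inr k) (Sum.inr i)) w)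
      have h6 : (3:ℂ) * #{y | (∀ j, F.l (D.sp j) u = F.l (D.sp j) y) ∧
        F.l (D.q (Sum.inr i) (Sum.inr k)) y = F.l (D.q (Sum.inr k) (Sum.inr i)) w} = D.ζ := by
        exact_mod_cast h5
      intro h
      apply hζ
      linear_combination -h6 - 3 * h

lemma Design.B_inl (a : Fin 4) (u : V) (z : Cell M × V) : D.B (Sum.inl a, u) z = 0 := by
  have hζ : (D.ζ : ℂ) ≠ 0 := by exact_mod_cast D.ζpos.ne'
  rw [Design.B, Matrix.map_apply, D.KA_inl, if_neg (Ne.symm hζ)]

/-- the indegree -/
def Design.deg (k : M × Bool) : ℕ := #{i | i ≠ tw k ∧ D.q (Sum.inr i) (Sum.inr k) ∈ D.L}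

lemma Design.colsum (k : M × Bool) (w : V) :
    ∑ x, D.B x (Sum.inr k, w) = 9 * F.μ + 6 * F.μ * D.deg k := by
  classical
  rw [Fintype.sum_prod_type, Fintype.sum_sum_type]
  simp only [D.B_inl, Finset.sum_const_zero, zero_add, D.B_inr]
  have h1 : ∀ i : M × Bool, ∑ u : V, (if i = tw k then (1:ℂ) else
      (if D.q (Sum.inr i) (Sum.inr k) ∈ D.L then D.A (Sum.inr i, u) (Sum.inr k, w) else 0)) =
      (if i = tw k then (9 * F.μ : ℂ) else 0) +
      6 * F.μ * (if i ≠ tw k ∧ D.q (Sum.inr i) (Sum.inr k) ∈ D.L then 1 else 0) := by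
    intro i
    by_cases h1 : i = tw k
    · have h2 : ¬ (i ≠ tw k ∧ D.q (Sum.inr i) (Sum.inr k) ∈ D.L) := fun hh => hh.1 h1
      simp only [if_pos h1, if_neg h2]
      simp [F.cardV]
    · by_cases hq : D.q (Sum.inr i) (Sum.inr k) ∈ D.L
      · have h2 : (i ≠ tw k ∧ D.q (Sum.inr i) (Sum.inr k) ∈ D.L) := ⟨h1, hq⟩
        simp only [if_neg h1, if_pos hq, if_pos h2]
        have h3 : ∀ u, D.A (Sum.inr i, u) (Sum.inr k, w) = D.A (Sum.inr k, w) (Sum.inr i, u) :=
          fun u => D.A_symm _ _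
        simp only [h3, D.row_sum]
        have h4 : (ww (Sum.inr k) (Sum.inr i) : ℂ) = 2 := by
          simp only [ww, cc, ee]; rw [if_neg h1]; norm_num
        rw [h4]; ring
      · have h2 : ¬ (i ≠ tw k ∧ D.q (Sum.inr i) (Sum.inr k) ∈ D.L) := fun hh => hq hh.2
        simp only [if_neg h1, if_neg hq, if_neg h2]
        simp
  rw [Finset.sum_congr rfl fun i _ => h1 i]
  rw [Finset.sum_add_distrib, ← Finset.mul_sum, Finset.sum_boole]
  simp only [Finset.sum_ite_eq', Finset.mem_univ, if_true]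
  rfl

theorem Design.rank_ge {N : ℕ} (τ : Fin N → M × Bool)
    (hτ : Function.Injective fun h => D.deg (τ h)) [DecidableRel D.graph.Adj] :
    N ≤ coherentRank D.graph := by
  classical
  obtain ⟨x0, -, -⟩ := F.exists_ne
  obtain ⟨hS, hA⟩ := isCoherentAlgebra_coherentClosure D.graph
  rw [D.adjMatrix_eq] at hA
  have hJB := (coherentClosure D.graph).mul_mem hS.allOnes_mem (D.B_mem hS hA)
  refine card_le_finrank hS hJB (fun h => 9 * F.μ + 6 * F.μ * D.deg (τ h)) ?_ ?_
  · intro a b hab
    apply hτ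
    have h1 : (6 * F.μ : ℂ) * D.deg (τ a) = (6 * F.μ : ℂ) * D.deg (τ b) := by
      have := hab
      simp only at this
      linear_combination this
    have h2 := mul_left_cancel₀ (mul_ne_zero (by norm_num) F.mu_ne) h1
    exact_mod_cast h2
  · intro h
    refine ⟨(Sum.inl 0, x0), (Sum.inr (τ h), x0), ?_⟩
    rw [Matrix.mul_apply]
    simp only [Matrix.of_apply, one_mul]
    exact D.colsum _ _

end Pool.Agent.Hhelper39.CoherentRank
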