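import Mathlib

/-!
# Projective Hjelmslev planes over finite commutative chain rings of nilpotency index two: definitions
-/

set_option autoImplicit false

namespace Pool.Agent.Hhelper39.PHG

universe u

/-! ### Definitions -/

/-- `R` is a finite (commutative) chain ring of nilpotency index two: `R` is finite, its ideals are
totally ordered by inclusion, and its radical is nonzero and has square zero. The residue field is
`R ⧸ Ring.jacobson R`. -/
structure IsChainRingTwo (R : Type u) [CommRing R] : Prop where
  finite : Finite R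
  chain : ∀ I J : Ideal R, I ≤ J ∨ J ≤ I
  rad_ne : Ring.jacobson R ≠ ⊥
  rad_sq : Ring.jacobson R ^ 2 = ⊥

/-- `P` is a point of `PHG(2,R)`: a free submodule of rank one of `R^3`. -/
def IsPoint (R : Type u) [CommRing R] (P : Submodule R (Fin 3 → R)) : Prop :=
  Nonempty (Module.Basis (Fin 1) R P)

/-- `L` is a line of `PHG(2,R)`: a free submodule of rank two of `R^3`. -/
def IsLine (R : Type u) [CommRing R] (L : Submodule R (Fin 3 → R)) : Prop :=
  Nonempty (Module.Basis (Fin 2) R L)

/-- The type of points of `PHG(2,R)`. -/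
abbrev Pt (R : Type u) [CommRing R] := {P : Submodule R (Fin 3 → R) // IsPoint R P}

/-- The type of lines of `PHG(2,R)`. -/
abbrev Ln (R : Type u) [CommRing R] := {L : Submodule R (Fin 3 → R) // IsLine R L}

/-- The size `|K|` of a multiset of points `K : Pt R → ℕ`. -/
noncomputable def size {R : Type u} [CommRing R] (K : Pt R → ℕ) : ℕ := ∑ᶠ x : Pt R, K x

/-- The multiplicity `K(L)` of a line: the sum of `K x` over the points `x` contained in `L`. -/
noncomputable def lineMult {R : Type u} [CommRing R] (K : Pt R → ℕ) (L : Ln R) : ℕ :=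
  ∑ᶠ (x : Pt R) (_ : x.1 ≤ L.1), K x

/-- `K` is a `(k,n)`-arc: `|K| = k` and `K(L) ≤ n` for every line `L`. -/
def IsArc {R : Type u} [CommRing R] (K : Pt R → ℕ) (k n : ℕ) : Prop :=
  size K = k ∧ ∀ L : Ln R, lineMult K L ≤ n

/-- `K` is a maximal `(k,n)`-arc: it is a `(k,n)`-arc and `k' ≤ k` for every `(k',n)`-arc `K'`
(over all multisets of points). -/
def IsMaximalArc {R : Type u} [CommRing R] (K : Pt R → ℕ) (k n : ℕ) : Prop :=
  IsArc K k n ∧ ∀ (K' : Pt R → ℕ) (k' : ℕ), IsArc K' k' n → k' ≤ k

end Pool.Agent.Hhelper39.PHG
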