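import Mathlib
import Pool.Agent.Hhelper39.PHGDefs

/-!
# Non-projective maximal arcs in projective Hjelmslev planes: proofs
-/

set_option autoImplicit false
set_option linter.unusedSectionVars false
set_option linter.style.haveILetI false

namespace Pool.Agent.Hhelper39.PHG

universe u

/-! ### Working data -/

/-- working data -/
structure Ctx (R F : Type u) [CommRing R] [Field F] where
  res : R →+* F
  tau : F →+ R
  res_surj : Function.Surjective res
  tau_inj : Function.Injective tau
  mul_tau : ∀ r f, r * tau f = tau (res r * f)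
  ker : ∀ r, res r = 0 → ∃ f, tau f = r
  res_tau : ∀ f, res (tau f) = 0
  unit : ∀ r, res r ≠ 0 → IsUnit r

section

variable {R F : Type u} [CommRing R] [Field F] (X : Ctx R F)
include X

theorem Ctx.unit_iff (r : R) : IsUnit r ↔ X.res r ≠ 0 :=
  ⟨fun h => (h.map X.res).ne_zero, X.unit r⟩

theorem Ctx.tau_mul (f : F) (r : R) : X.tau f * r = X.tau (f * X.res r) := by
  rw [mul_comm, X.mul_tau, mul_comm]

theorem Ctx.res_zero_iff (r : R) : X.res r = 0 ↔ ∃ f, X.tau f = r :=
  ⟨X.ker r, by rintro ⟨f, rfl⟩; exact X.res_tau f⟩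

variable [Fintype R] [Fintype F]

open Classical in
/-- sum over the kernel of the residue map -/
theorem Ctx.sum_ker {M : Type*} [AddCommMonoid M] (g : R → M) :
    (∑ r : R, if X.res r = 0 then g r else 0) = ∑ z : F, g (X.tau z) := by
  rw [← Finset.sum_filter]
  symm
  refine Finset.sum_bij (fun z _ => X.tau z) ?_ ?_ ?_ ?_
  · intro z _; simp [X.res_tau]
  · intro a _ b _ h; exact X.tau_inj h
  · intro r hr
    simp only [Finset.mem_filter, Finset.mem_univ, true_and] at hr
    obtain ⟨f, hf⟩ := X.ker r hr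
    exact ⟨f, Finset.mem_univ _, hf⟩
  · intro z _; rfl

open Classical in
theorem Ctx.card_fiber (f : F) :
    (Finset.univ.filter (fun r : R => X.res r = f)).card = Fintype.card F := by
  obtain ⟨r0, hr0⟩ := X.res_surj f
  rw [← Finset.card_univ (α := F)]
  symm
  refine Finset.card_bij (fun z _ => r0 + X.tau z) ?_ ?_ ?_
  · intro z _; simp [X.res_tau, hr0]
  · intro a _ b _ h; exact X.tau_inj (add_left_cancel h)
  · intro r hr
    simp only [Finset.mem_filter, Finset.mem_univ, true_and] at hr
    obtain ⟨z, hz⟩ := X.ker (r - r0) (by rw [map_sub, hr, hr0, sub_self])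
    exact ⟨z, Finset.mem_univ _, by rw [hz]; ring⟩

open Classical in
/-- a function of the residue summed over the ring -/
theorem Ctx.sum_res (g : F → ℕ) :
    (∑ r : R, g (X.res r)) = Fintype.card F * ∑ f : F, g f := by
  rw [← Finset.sum_fiberwise (Finset.univ : Finset R) (fun r => X.res r) (fun r => g (X.res r))]
  rw [Finset.mul_sum]
  refine Finset.sum_congr rfl fun f _ => ?_
  rw [← X.card_fiber f, Finset.card_eq_sum_ones, Finset.sum_mul]
  refine Finset.sum_congr rfl fun r hr => ?_
  simp only [Finset.mem_filter, Finset.mem_univ, true_and] at hr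
  rw [hr, one_mul]

theorem Ctx.card_R : Fintype.card R = Fintype.card F ^ 2 := by
  have h := X.sum_res (fun _ => 1)
  simp only [Finset.sum_const, Finset.card_univ, smul_eq_mul, mul_one] at h
  rw [h, sq]

open Classical in
theorem Ctx.card_units : Fintype.card Rˣ = Fintype.card F * (Fintype.card F - 1) := by
  have h := X.sum_res (fun f => if f ≠ 0 then 1 else 0)
  have h1 : (∑ f : F, if f ≠ 0 then 1 else 0) = Fintype.card F - 1 := by
    rw [← Finset.sum_filter, Finset.filter_ne', Finset.sum_const, Finset.card_erase_of_mem (Finset.mem_univ _)]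
    simp
  rw [h1] at h
  rw [← h, ← Finset.sum_filter, Finset.sum_const, smul_eq_mul, mul_one, ← Finset.card_univ]
  refine Finset.card_bij (fun u _ => (u : R)) ?_ ?_ ?_
  · intro u _
    simp only [Finset.mem_filter, Finset.mem_univ, true_and]
    exact (X.unit_iff _).1 u.isUnit
  · intro a _ b _ h; exact Units.ext h
  · intro r hr
    simp only [Finset.mem_filter, Finset.mem_univ, true_and] at hr
    obtain ⟨u, hu⟩ := X.unit r hr
    exact ⟨u, Finset.mem_univ _, hu⟩

end


/-- unimodular vectors -/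
def uni {R : Type u} [CommRing R] (y : Fin 3 → R) : Prop := ∃ i, IsUnit (y i)

theorem uni_smul {R : Type u} [CommRing R] {y : Fin 3 → R} (u : Rˣ) (hy : uni y) : uni (u • y) := by
  obtain ⟨i, hi⟩ := hy
  exact ⟨i, by simpa [Units.smul_def] using (u.isUnit.mul hi)⟩

theorem isPoint_span {R : Type u} [CommRing R] {y : Fin 3 → R} (hy : uni y) :
    IsPoint R (Submodule.span R {y}) := by
  have hli : LinearIndependent R (fun _ : Fin 1 => y) := by
    rw [Fintype.linearIndependent_iff]
    intro g hg i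
    obtain ⟨j, hj⟩ := hy
    have h0 : g 0 * y j = 0 := by
      have := congrFun hg j
      simpa using this
    have : g 0 = 0 := by
      have := hj.mul_left_injective (a₁ := g 0) (a₂ := 0) (by simpa using h0)
      exact this
    rw [Subsingleton.elim i 0]; exact this
  have hr : Set.range (fun _ : Fin 1 => y) = {y} := Set.range_const
  exact ⟨(Module.Basis.span hli).map (LinearEquiv.ofEq _ _ (by rw [hr]))⟩

theorem span_units_smul {R : Type u} [CommRing R] (u : Rˣ) (y : Fin 3 → R) :
    Submodule.span R {u • y} = Submodule.span R {y} := by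
  rw [Units.smul_def]
  exact Submodule.span_singleton_smul_eq u.isUnit y

noncomputable instance instFintypePt {R : Type u} [CommRing R] [Fintype R] : Fintype (Pt R) :=
  Fintype.ofFinite _

open Classical in
/-- the vector function attached to a point function -/
noncomputable def kap {R : Type u} [CommRing R] (K : Pt R → ℕ) (y : Fin 3 → R) : ℕ :=
  if h : uni y then K ⟨Submodule.span R {y}, isPoint_span h⟩ else 0

theorem kap_zero {R : Type u} [CommRing R] (K : Pt R → ℕ) {y : Fin 3 → R} (h : ¬ uni y) :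
    kap K y = 0 := by
  simp [kap, h]

section

variable {R F : Type u} [CommRing R] [Field F] (X : Ctx R F)
include X

theorem Ctx.not_uni_iff (y : Fin 3 → R) : ¬ uni y ↔ ∀ i, X.res (y i) = 0 := by
  unfold uni
  push Not
  refine forall_congr' fun i => ?_
  rw [X.unit_iff]; simp

theorem Ctx.exists_gen (P : Submodule R (Fin 3 → R)) (hP : IsPoint R P) :
    ∃ y, uni y ∧ Submodule.span R {y} = P := by
  obtain ⟨b⟩ := hP
  refine ⟨(b 0 : Fin 3 → R), ?_, ?_⟩
  · by_contra h
    rw [X.not_uni_iff] at h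
    have h1 : (X.tau 1) • (b 0) = 0 := by
      apply Subtype.ext
      funext i
      simp only [SetLike.val_smul, Pi.smul_apply, smul_eq_mul, ZeroMemClass.coe_zero, Pi.zero_apply]
      rw [X.tau_mul, h i]; simp
    have h2 := Fintype.linearIndependent_iff.1 b.linearIndependent (fun _ => X.tau 1)
      (by simpa using h1) 0
    have h3 : (1 : F) = 0 := X.tau_inj (by simpa using h2)
    exact one_ne_zero h3
  · apply le_antisymm
    · rw [Submodule.span_singleton_le_iff_mem]; exact (b 0).2
    · intro p hp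
      rw [Submodule.mem_span_singleton]
      refine ⟨b.repr ⟨p, hp⟩ 0, ?_⟩
      have := b.sum_repr ⟨p, hp⟩
      have h2 := congrArg Subtype.val this
      simpa using h2

/-- a chosen generator -/
noncomputable def Ctx.rep (P : Pt R) : Fin 3 → R := (X.exists_gen P.1 P.2).choose

theorem Ctx.rep_uni (P : Pt R) : uni (X.rep P) := (X.exists_gen P.1 P.2).choose_spec.1
theorem Ctx.rep_span (P : Pt R) : Submodule.span R {X.rep P} = P.1 :=
  (X.exists_gen P.1 P.2).choose_spec.2

/-- unimodular vectors are pairs (point, unit) -/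
noncomputable def Ctx.equivUni : Pt R × Rˣ ≃ {y : Fin 3 → R // uni y} :=
  Equiv.ofBijective (fun p => ⟨p.2 • X.rep p.1, uni_smul p.2 (X.rep_uni p.1)⟩) (by
    constructor
    · rintro ⟨P, u⟩ ⟨Q, v⟩ h
      have h1 : u • X.rep P = v • X.rep Q := congrArg Subtype.val h
      have hPQ : P = Q := by
        apply Subtype.ext
        rw [← X.rep_span P, ← X.rep_span Q, ← span_units_smul u, h1, span_units_smul]
      subst hPQ
      obtain ⟨i, hi⟩ := X.rep_uni P
      have h2 : (u : R) * X.rep P i = v * X.rep P i := by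
        have := congrFun h1 i
        simpa [Units.smul_def] using this
      have h3 : (u : R) = v := hi.mul_left_injective h2
      rw [Units.ext h3]
    · rintro ⟨y, hy⟩
      let P : Pt R := ⟨Submodule.span R {y}, isPoint_span hy⟩
      have hspan : Submodule.span R {X.rep P} = Submodule.span R {y} := X.rep_span P
      have h1 : y ∈ Submodule.span R {X.rep P} := by
        rw [hspan]; exact Submodule.mem_span_singleton_self y
      have h2 : X.rep P ∈ Submodule.span R {y} := by
        rw [← hspan]; exact Submodule.mem_span_singleton_self _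
      rw [Submodule.mem_span_singleton] at h1 h2
      obtain ⟨r, hr⟩ := h1
      obtain ⟨s, hs⟩ := h2
      obtain ⟨i, hi⟩ := hy
      have h3 : r * s * y i = 1 * y i := by
        have : r • s • y = y := by rw [hs, hr]
        have := congrFun this i
        simpa [mul_assoc] using this
      have h4 : r * s = 1 := hi.mul_left_injective h3
      refine ⟨(P, Units.mkOfMulEqOne r s h4), ?_⟩
      apply Subtype.ext
      simpa [Units.smul_def] using hr)

theorem Ctx.equivUni_apply (P : Pt R) (u : Rˣ) : (X.equivUni (P, u) : Fin 3 → R) = u • X.rep P := rfl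

variable [Fintype R] [Fintype F]

theorem Ctx.kap_rep (K : Pt R → ℕ) (P : Pt R) (u : Rˣ) : kap K (u • X.rep P) = K P := by
  rw [kap, dif_pos (uni_smul u (X.rep_uni P))]
  congr 1
  apply Subtype.ext
  simp only
  rw [span_units_smul, X.rep_span]

open Classical in
theorem Ctx.sum_kap (K : Pt R → ℕ) (E : (Fin 3 → R) → Prop)
    (hE : ∀ (u : Rˣ) y, E (u • y) ↔ E y) :
    (∑ y : Fin 3 → R, if E y then kap K y else 0) =
      Fintype.card Rˣ * ∑ P : Pt R, if E (X.rep P) then K P else 0 := by
  have h1 : (∑ y : Fin 3 → R, if E y then kap K y else 0) =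
      ∑ y : {y : Fin 3 → R // uni y}, if E y.1 then kap K y.1 else 0 := by
    rw [← Finset.sum_filter_add_sum_filter_not Finset.univ (fun y : Fin 3 → R => uni y)]
    have h2 : (∑ y ∈ Finset.univ.filter (fun y : Fin 3 → R => ¬ uni y), if E y then kap K y else 0) = 0 := by
      refine Finset.sum_eq_zero fun y hy => ?_
      simp only [Finset.mem_filter, Finset.mem_univ, true_and] at hy
      rw [kap_zero K hy]; simp
    rw [h2, add_zero]
    exact Finset.sum_subtype (Finset.univ.filter (fun y : Fin 3 → R => uni y)) (by simp) _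
  rw [h1, ← Equiv.sum_comp X.equivUni, Fintype.sum_prod_type, Finset.mul_sum]
  refine Finset.sum_congr rfl fun P _ => ?_
  have h3 : ∀ u : Rˣ, (if E (X.equivUni (P, u) : Fin 3 → R) then kap K (X.equivUni (P, u) : Fin 3 → R) else 0) =
      if E (X.rep P) then K P else 0 := by
    intro u
    rw [X.equivUni_apply, X.kap_rep]
    simp only [hE]
  rw [Finset.sum_congr rfl fun u _ => h3 u]
  simp

end

section

variable {R F : Type u} [CommRing R] [Field F] (X : Ctx R F) [Fintype R] [Fintype F]

omit [Fintype R] in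
theorem size_eq [Fintype R] (K : Pt R → ℕ) : size K = ∑ x : Pt R, K x := by
  unfold size; exact finsum_eq_sum_of_fintype _

open Classical in
omit [Fintype R] in
theorem lineMult_eq [Fintype R] (K : Pt R → ℕ) (L : Ln R) :
    lineMult K L = ∑ x : Pt R, if x.1 ≤ L.1 then K x else 0 := by
  unfold lineMult
  rw [finsum_eq_sum_of_fintype]
  refine Finset.sum_congr rfl fun x _ => ?_
  rw [finsum_eq_if]

include X

open Classical in
theorem Ctx.sum_all (K : Pt R → ℕ) :
    (∑ y : Fin 3 → R, kap K y) = Fintype.card Rˣ * size K := by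
  have := X.sum_kap K (fun _ => True) (by simp)
  simpa [size_eq] using this

open Classical in
theorem Ctx.sum_line (K : Pt R → ℕ) (L : Ln R) :
    (∑ y : Fin 3 → R, if y ∈ L.1 then kap K y else 0) = Fintype.card Rˣ * lineMult K L := by
  have h := X.sum_kap K (fun y => y ∈ L.1) (by
    intro u y
    constructor
    · intro h
      have := L.1.smul_mem (↑u⁻¹ : R) h
      simpa [Units.smul_def, smul_smul] using this
    · intro h
      exact L.1.smul_mem (u : R) h)
  rw [h, lineMult_eq]
  congr 1
  refine Finset.sum_congr rfl fun P _ => ?_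
  have : (X.rep P ∈ L.1) ↔ P.1 ≤ L.1 := by
    rw [← X.rep_span P, Submodule.span_singleton_le_iff_mem]
  simp only [this]

end

/-- the standard line `w 2 = c * w 0 + d * w 1` -/
def stdLine {R : Type u} [CommRing R] (c d : R) : Submodule R (Fin 3 → R) where
  carrier := {w | w 2 = c * w 0 + d * w 1}
  add_mem' := by
    intro a b ha hb
    simp only [Set.mem_ofPred_eq, Pi.add_apply] at *
    rw [ha, hb]; ring
  zero_mem' := by simp
  smul_mem' := by
    intro r a ha
    simp only [Set.mem_ofPred_eq, Pi.smul_apply, smul_eq_mul] at *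
    rw [ha]; ring

theorem mem_stdLine {R : Type u} [CommRing R] (c d : R) (w : Fin 3 → R) :
    w ∈ stdLine c d ↔ w 2 = c * w 0 + d * w 1 := Iff.rfl

/-- coordinates on the standard line -/
def stdLineEquiv {R : Type u} [CommRing R] (c d : R) : stdLine c d ≃ₗ[R] (Fin 2 → R) where
  toFun w := ![w.1 0, w.1 1]
  map_add' a b := by funext i; fin_cases i <;> simp
  map_smul' r a := by funext i; fin_cases i <;> simp
  invFun v := ⟨![v 0, v 1, c * v 0 + d * v 1], by simp [mem_stdLine]⟩
  left_inv w := by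
    apply Subtype.ext
    funext i
    have := (mem_stdLine c d w.1).1 w.2
    fin_cases i <;> simp [this]
  right_inv v := by funext i; fin_cases i <;> simp

theorem isLine_stdLine {R : Type u} [CommRing R] (c d : R) : IsLine R (stdLine c d) :=
  ⟨Module.Basis.ofEquivFun (stdLineEquiv c d)⟩

theorem isLine_map {R : Type u} [CommRing R] (g : (Fin 3 → R) ≃ₗ[R] (Fin 3 → R))
    {L : Submodule R (Fin 3 → R)} (hL : IsLine R L) :
    IsLine R (L.map (g : (Fin 3 → R) →ₗ[R] (Fin 3 → R))) := by
  obtain ⟨b⟩ := hL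
  exact ⟨b.map (g.submoduleMap L)⟩

section

variable {R F : Type u} [CommRing R] [Field F] (X : Ctx R F) [Fintype R] [Fintype F]
include X

open Classical in
theorem Ctx.line_ineq (K : Pt R → ℕ) (n : ℕ) (hK : ∀ L : Ln R, lineMult K L ≤ n)
    (g : (Fin 3 → R) ≃ₗ[R] (Fin 3 → R)) (c d : R) :
    (∑ w : Fin 3 → R, if w 2 = c * w 0 + d * w 1 then kap K (g w) else 0) ≤ Fintype.card Rˣ * n := by
  have h := X.sum_line K ⟨_, isLine_map g (isLine_stdLine c d)⟩
  have h2 := hK ⟨_, isLine_map g (isLine_stdLine c d)⟩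
  rw [← Equiv.sum_comp g.toEquiv] at h
  have h3 : ∀ w : Fin 3 → R, ((g.toEquiv w ∈ (stdLine c d).map (g : (Fin 3 → R) →ₗ[R] (Fin 3 → R))) ↔
      w 2 = c * w 0 + d * w 1) := by
    intro w
    rw [← mem_stdLine]
    constructor
    · rintro ⟨w', hw', h⟩
      have : w' = w := g.injective h
      rwa [← this]
    · intro h; exact ⟨w, h, rfl⟩
  simp only [h3] at h
  calc _ = _ := h
    _ ≤ _ := Nat.mul_le_mul_left _ h2

/-- unimodularity is preserved -/
theorem Ctx.uni_of_map (g : (Fin 3 → R) ≃ₗ[R] (Fin 3 → R)) (w : Fin 3 → R) (h : uni (g w)) : uni w := by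
  by_contra hw
  rw [X.not_uni_iff] at hw
  have h1 : ¬ uni (g w) := by
    rw [X.not_uni_iff]
    intro i
    have h2 : X.tau 1 • w = 0 := by
      funext j
      simp only [Pi.smul_apply, smul_eq_mul, Pi.zero_apply]
      rw [X.tau_mul, hw j]; simp
    have h3 : X.tau 1 • g w = 0 := by rw [← map_smul, h2, map_zero]
    have h4 := congrFun h3 i
    simp only [Pi.smul_apply, smul_eq_mul, Pi.zero_apply] at h4
    rw [X.tau_mul, one_mul] at h4
    exact X.tau_inj (by simpa using h4)
  exact h1 h

end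

/-! ### the upper bound -/

/-- shear on the last coordinate -/
def shear {R : Type u} [CommRing R] (d : R) : (Fin 3 → R) ≃ₗ[R] (Fin 3 → R) where
  toFun w := ![w 0, w 1, w 2 + d * w 1]
  map_add' a b := by funext i; fin_cases i <;> simp; ring
  map_smul' r a := by funext i; fin_cases i <;> simp; ring
  invFun w := ![w 0, w 1, w 2 - d * w 1]
  left_inv w := by funext i; fin_cases i <;> simp
  right_inv w := by funext i; fin_cases i <;> simp

/-- swap of the last two coordinates -/
def swp {R : Type u} [CommRing R] : (Fin 3 → R) ≃ₗ[R] (Fin 3 → R) where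
  toFun w := ![w 0, w 2, w 1]
  map_add' a b := by funext i; fin_cases i <;> simp
  map_smul' r a := by funext i; fin_cases i <;> simp
  invFun w := ![w 0, w 2, w 1]
  left_inv w := by funext i; fin_cases i <;> simp
  right_inv w := by funext i; fin_cases i <;> simp

/-- another change of coordinates -/
def rot {R : Type u} [CommRing R] (d : R) : (Fin 3 → R) ≃ₗ[R] (Fin 3 → R) where
  toFun w := ![w 1 + d * w 0, w 0, w 2]
  map_add' a b := by funext i; fin_cases i <;> simp; ring
  map_smul' r a := by funext i; fin_cases i <;> simp; ring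
  invFun w := ![w 1, w 0 - d * w 1, w 2]
  left_inv w := by funext i; fin_cases i <;> simp
  right_inv w := by funext i; fin_cases i <;> simp

section

variable {R F : Type u} [CommRing R] [Field F] (X : Ctx R F) [Fintype R] [Fintype F]

open Classical in
/-- class sum -/
noncomputable def Ctx.C (K : Pt R → ℕ) (g : (Fin 3 → R) ≃ₗ[R] (Fin 3 → R)) : ℕ :=
  ∑ w : Fin 3 → R, if X.res (w 1) = 0 ∧ X.res (w 2) = 0 then kap K (g w) else 0

open Classical in
/-- rest of the line class -/
noncomputable def Ctx.Rr (K : Pt R → ℕ) (g : (Fin 3 → R) ≃ₗ[R] (Fin 3 → R)) : ℕ :=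
  ∑ w : Fin 3 → R, if X.res (w 1) ≠ 0 ∧ X.res (w 2) = 0 then kap K (g w) else 0

open Classical in
/-- segment sum -/
noncomputable def Ctx.S (K : Pt R → ℕ) (g : (Fin 3 → R) ≃ₗ[R] (Fin 3 → R)) (j : F) : ℕ :=
  ∑ w : Fin 3 → R, if X.res (w 1) = 0 ∧ w 2 = X.tau j * w 0 then kap K (g w) else 0

open Classical in
theorem Ctx.flag (K : Pt R → ℕ) (n : ℕ) (hK : ∀ L : Ln R, lineMult K L ≤ n)
    (g : (Fin 3 → R) ≃ₗ[R] (Fin 3 → R)) (j : F) :
    Fintype.card F * X.S K g j + X.Rr K g ≤ Fintype.card F * (Fintype.card Rˣ * n) := by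
  have h1 : (∑ β : F, ∑ w : Fin 3 → R,
      if w 2 = X.tau j * w 0 + X.tau β * w 1 then kap K (g w) else 0) ≤
      Fintype.card F * (Fintype.card Rˣ * n) := by
    calc _ ≤ ∑ β : F, Fintype.card Rˣ * n :=
          Finset.sum_le_sum fun β _ => X.line_ineq K n hK g (X.tau j) (X.tau β)
      _ = _ := by simp
  refine le_trans ?_ h1
  rw [Finset.sum_comm]
  unfold Ctx.S Ctx.Rr
  rw [Finset.mul_sum, ← Finset.sum_add_distrib]
  refine Finset.sum_le_sum fun w _ => ?_
  by_cases hw1 : X.res (w 1) = 0
  · simp only [hw1, true_and, ne_eq, not_true_eq_false, false_and, if_false, add_zero]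
    by_cases hw2 : w 2 = X.tau j * w 0
    · have : ∀ β : F, w 2 = X.tau j * w 0 + X.tau β * w 1 := by
        intro β; rw [X.tau_mul β, hw1]; simpa using hw2
      rw [if_pos hw2, Finset.sum_congr rfl fun β _ => if_pos (this β)]
      simp
    · rw [if_neg hw2]; simp
  · simp only [hw1, false_and, if_false, mul_zero, zero_add, ne_eq, not_false_eq_true, true_and]
    by_cases hw2 : X.res (w 2) = 0
    · obtain ⟨z, hz⟩ := X.ker _ hw2
      have hβ : w 2 = X.tau j * w 0 + X.tau ((z - j * X.res (w 0)) / X.res (w 1)) * w 1 := by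
        rw [X.tau_mul, X.tau_mul, ← map_add, div_mul_cancel₀ _ hw1, ← hz]
        congr 1; ring
      rw [if_pos hw2]
      calc kap K (g w) = (if w 2 = X.tau j * w 0 + X.tau ((z - j * X.res (w 0)) / X.res (w 1)) * w 1
              then kap K (g w) else 0) := by rw [if_pos hβ]
        _ ≤ _ := Finset.single_le_sum (f := fun β : F =>
              if w 2 = X.tau j * w 0 + X.tau β * w 1 then kap K (g w) else 0)
              (fun _ _ => Nat.zero_le _) (Finset.mem_univ _)
    · rw [if_neg hw2]; simp

theorem Ctx.C_le_sum_S (K : Pt R → ℕ) (g : (Fin 3 → R) ≃ₗ[R] (Fin 3 → R)) :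
    X.C K g ≤ ∑ j : F, X.S K g j := by
  classical
  unfold Ctx.C Ctx.S
  rw [Finset.sum_comm]
  refine Finset.sum_le_sum fun w _ => ?_
  by_cases h : X.res (w 1) = 0 ∧ X.res (w 2) = 0
  · rw [if_pos h]
    by_cases hu : uni (g w)
    · have hw := X.uni_of_map g w hu
      have h0 : X.res (w 0) ≠ 0 := by
        intro h0
        apply (X.not_uni_iff w).2 _ hw
        intro i; fin_cases i
        · exact h0
        · exact h.1
        · exact h.2
      obtain ⟨z, hz⟩ := X.ker _ h.2
      have hj : X.res (w 1) = 0 ∧ w 2 = X.tau (z / X.res (w 0)) * w 0 := by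
        refine ⟨h.1, ?_⟩
        rw [X.tau_mul, div_mul_cancel₀ _ h0, hz]
      calc kap K (g w) = (if X.res (w 1) = 0 ∧ w 2 = X.tau (z / X.res (w 0)) * w 0
              then kap K (g w) else 0) := by rw [if_pos hj]
        _ ≤ _ := Finset.single_le_sum (f := fun j : F =>
              if X.res (w 1) = 0 ∧ w 2 = X.tau j * w 0 then kap K (g w) else 0)
              (fun _ _ => Nat.zero_le _) (Finset.mem_univ _)
    · rw [kap_zero K hu]; simp
  · rw [if_neg h]; exact Nat.zero_le _

open Classical in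
theorem Ctx.dvd_S (K : Pt R → ℕ) (g : (Fin 3 → R) ≃ₗ[R] (Fin 3 → R)) (j : F) :
    Fintype.card Rˣ ∣ X.S K g j := by
  unfold Ctx.S
  rw [← Equiv.sum_comp g.symm.toEquiv]
  have h := X.sum_kap K (fun y => X.res (g.symm y 1) = 0 ∧ g.symm y 2 = X.tau j * g.symm y 0) (by
    intro u y
    have hu : X.res (u : R) ≠ 0 := (X.unit_iff _).1 u.isUnit
    have h1 : g.symm (u • y) = (u : R) • g.symm y := by rw [Units.smul_def, map_smul]
    rw [h1]
    simp only [Pi.smul_apply, smul_eq_mul, map_mul, mul_eq_zero, hu, false_or]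
    refine and_congr_right fun _ => ?_
    constructor
    · intro h
      have h2 : (u : R) * g.symm y 2 = u * (X.tau j * g.symm y 0) := by rw [h]; ring
      exact u.isUnit.mul_right_injective h2
    · intro h; rw [h]; ring)
  have h2 : (∑ i : Fin 3 → R, if X.res (g.symm.toEquiv i 1) = 0 ∧
      g.symm.toEquiv i 2 = X.tau j * g.symm.toEquiv i 0 then kap K (g (g.symm.toEquiv i)) else 0) =
      ∑ y : Fin 3 → R, if X.res (g.symm y 1) = 0 ∧ g.symm y 2 = X.tau j * g.symm y 0
        then kap K y else 0 := by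
    refine Finset.sum_congr rfl fun y _ => ?_
    simp
  rw [h2]
  refine ⟨_, Eq.trans ?_ h⟩
  refine Finset.sum_congr rfl fun y _ => ?_
  split_ifs <;> rfl

open Classical in
/-- combined bound with the class sum -/
theorem Ctx.C_add_Rr (K : Pt R → ℕ) (n : ℕ) (hK : ∀ L : Ln R, lineMult K L ≤ n)
    (g : (Fin 3 → R) ≃ₗ[R] (Fin 3 → R)) :
    X.C K g + X.Rr K g ≤ Fintype.card F * (Fintype.card Rˣ * n) := by
  have hq : 0 < Fintype.card F := Fintype.card_pos
  have h1 : ∑ j : F, (Fintype.card F * X.S K g j + X.Rr K g) ≤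
      ∑ j : F, Fintype.card F * (Fintype.card Rˣ * n) :=
    Finset.sum_le_sum fun j _ => X.flag K n hK g j
  rw [Finset.sum_add_distrib, ← Finset.mul_sum] at h1
  simp only [Finset.sum_const, Finset.card_univ, smul_eq_mul] at h1
  have h2 := X.C_le_sum_S K g
  have h3 : Fintype.card F * (X.C K g + X.Rr K g) ≤
      Fintype.card F * (Fintype.card F * (Fintype.card Rˣ * n)) := by
    calc _ = Fintype.card F * X.C K g + Fintype.card F * X.Rr K g := by ring
      _ ≤ Fintype.card F * (∑ j : F, X.S K g j) + Fintype.card F * X.Rr K g := by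
          gcongr
      _ ≤ _ := h1
  exact Nat.le_of_mul_le_mul_left h3 hq

open Classical in
/-- bound from a heavy class -/
theorem Ctx.Rr_heavy (K : Pt R → ℕ) (n : ℕ) (hK : ∀ L : Ln R, lineMult K L ≤ n)
    (g : (Fin 3 → R) ≃ₗ[R] (Fin 3 → R))
    (hC : Fintype.card Rˣ * (Fintype.card F * (Fintype.card F - 1)) < X.C K g) :
    X.Rr K g + Fintype.card Rˣ * Fintype.card F ^ 2 ≤ Fintype.card F * (Fintype.card Rˣ * n) := by
  have hex : ∃ j : F, Fintype.card Rˣ * (Fintype.card F - 1) < X.S K g j := by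
    by_contra hcon
    push Not at hcon
    have h1 := X.C_le_sum_S K g
    have h2 : ∑ j : F, X.S K g j ≤ ∑ j : F, Fintype.card Rˣ * (Fintype.card F - 1) :=
      Finset.sum_le_sum fun j _ => hcon j
    simp only [Finset.sum_const, Finset.card_univ, smul_eq_mul] at h2
    have h3 : Fintype.card F * (Fintype.card Rˣ * (Fintype.card F - 1)) =
      Fintype.card Rˣ * (Fintype.card F * (Fintype.card F - 1)) := by ring
    omega
  obtain ⟨j, hj⟩ := hex
  obtain ⟨t, ht⟩ := X.dvd_S K g j
  rw [ht] at hj
  have h4 : Fintype.card F - 1 < t := lt_of_mul_lt_mul_left hj (Nat.zero_le _)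
  have h5 : Fintype.card F ≤ t := by omega
  have h6 := X.flag K n hK g j
  rw [ht] at h6
  have h7 : Fintype.card Rˣ * Fintype.card F ^ 2 ≤ Fintype.card F * (Fintype.card Rˣ * t) := by
    calc _ = Fintype.card F * (Fintype.card Rˣ * Fintype.card F) := by ring
      _ ≤ _ := by gcongr
  omega

end

section

variable {R F : Type u} [CommRing R] [Field F] (X : Ctx R F) [Fintype R] [Fintype F]

/-- a lift -/
noncomputable def Ctx.lft (t : F) : R := (X.res_surj t).choose

omit [Fintype R] [Fintype F] in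
theorem Ctx.res_lft (t : F) : X.res (X.lft t) = t := (X.res_surj t).choose_spec

theorem Ctx.C_shear (K : Pt R → ℕ) (g : (Fin 3 → R) ≃ₗ[R] (Fin 3 → R)) (d : R) :
    X.C K ((shear d).trans g) = X.C K g := by
  classical
  unfold Ctx.C
  rw [← Equiv.sum_comp (shear d).toEquiv (fun w => if X.res (w 1) = 0 ∧ X.res (w 2) = 0 then kap K (g w) else 0)]
  refine Finset.sum_congr rfl fun w _ => ?_
  have h1 : (shear d).toEquiv w 1 = w 1 := rfl
  have h2 : (shear d).toEquiv w 2 = w 2 + d * w 1 := rfl
  simp only [h1, h2]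
  by_cases h : X.res (w 1) = 0
  · simp [h]
  · simp [h]

open Classical in
theorem Ctx.Rr_shear (K : Pt R → ℕ) (g : (Fin 3 → R) ≃ₗ[R] (Fin 3 → R)) (d : R) :
    X.Rr K ((shear d).trans g) = ∑ w : Fin 3 → R,
      if X.res (w 1) ≠ 0 ∧ X.res (w 2) = X.res d * X.res (w 1) then kap K (g w) else 0 := by
  unfold Ctx.Rr
  rw [← Equiv.sum_comp (shear d).toEquiv (fun w =>
    if X.res (w 1) ≠ 0 ∧ X.res (w 2) = X.res d * X.res (w 1) then kap K (g w) else 0)]
  refine Finset.sum_congr rfl fun w _ => ?_
  have h1 : (shear d).toEquiv w 1 = w 1 := rfl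
  have h2 : (shear d).toEquiv w 2 = w 2 + d * w 1 := rfl
  simp only [h1, h2, map_add, map_mul]
  have h3 : (X.res (w 2) + X.res d * X.res (w 1) = X.res d * X.res (w 1)) ↔ X.res (w 2) = 0 := by simp
  simp only [h3]
  rfl

theorem Ctx.C_swp (K : Pt R → ℕ) (g : (Fin 3 → R) ≃ₗ[R] (Fin 3 → R)) :
    X.C K (swp.trans g) = X.C K g := by
  classical
  unfold Ctx.C
  rw [← Equiv.sum_comp (swp (R := R)).toEquiv (fun w => if X.res (w 1) = 0 ∧ X.res (w 2) = 0 then kap K (g w) else 0)]
  refine Finset.sum_congr rfl fun w _ => ?_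
  have h1 : (swp (R := R)).toEquiv w 1 = w 2 := rfl
  have h2 : (swp (R := R)).toEquiv w 2 = w 1 := rfl
  simp only [h1, h2]
  have h3 : (X.res (w 1) = 0 ∧ X.res (w 2) = 0) ↔ (X.res (w 2) = 0 ∧ X.res (w 1) = 0) := and_comm
  simp only [h3]
  rfl

open Classical in
theorem Ctx.Rr_swp (K : Pt R → ℕ) (g : (Fin 3 → R) ≃ₗ[R] (Fin 3 → R)) :
    X.Rr K (swp.trans g) = ∑ w : Fin 3 → R,
      if X.res (w 2) ≠ 0 ∧ X.res (w 1) = 0 then kap K (g w) else 0 := by
  unfold Ctx.Rr
  rw [← Equiv.sum_comp (swp (R := R)).toEquiv (fun w =>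
    if X.res (w 2) ≠ 0 ∧ X.res (w 1) = 0 then kap K (g w) else 0)]
  refine Finset.sum_congr rfl fun w _ => ?_
  have h1 : (swp (R := R)).toEquiv w 1 = w 2 := rfl
  have h2 : (swp (R := R)).toEquiv w 2 = w 1 := rfl
  simp only [h1, h2]
  rfl

open Classical in
theorem Ctx.C_rot (K : Pt R → ℕ) (g : (Fin 3 → R) ≃ₗ[R] (Fin 3 → R)) (d : R) :
    X.C K ((rot d).trans g) = ∑ w : Fin 3 → R,
      if X.res (w 0) = X.res d * X.res (w 1) ∧ X.res (w 2) = 0 then kap K (g w) else 0 := by
  unfold Ctx.C
  rw [← Equiv.sum_comp (rot d).toEquiv (fun w =>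
    if X.res (w 0) = X.res d * X.res (w 1) ∧ X.res (w 2) = 0 then kap K (g w) else 0)]
  refine Finset.sum_congr rfl fun w _ => ?_
  have h0 : (rot d).toEquiv w 0 = w 1 + d * w 0 := rfl
  have h1 : (rot d).toEquiv w 1 = w 0 := rfl
  have h2 : (rot d).toEquiv w 2 = w 2 := rfl
  simp only [h0, h1, h2, map_add, map_mul]
  have h3 : (X.res (w 1) + X.res d * X.res (w 0) = X.res d * X.res (w 0)) ↔ X.res (w 1) = 0 := by simp
  simp only [h3]
  rfl

theorem Ctx.Rr_le (K : Pt R → ℕ) (g : (Fin 3 → R) ≃ₗ[R] (Fin 3 → R)) :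
    X.Rr K g ≤ ∑ t : F, X.C K ((rot (X.lft t)).trans g) := by
  classical
  simp only [X.C_rot]
  unfold Ctx.Rr
  rw [Finset.sum_comm]
  refine Finset.sum_le_sum fun w _ => ?_
  by_cases h : X.res (w 1) ≠ 0 ∧ X.res (w 2) = 0
  · have hc : X.res (w 0) = X.res (X.lft (X.res (w 0) / X.res (w 1))) * X.res (w 1) ∧ X.res (w 2) = 0 := by
      refine ⟨?_, h.2⟩
      rw [X.res_lft, div_mul_cancel₀ _ h.1]
    calc (if X.res (w 1) ≠ 0 ∧ X.res (w 2) = 0 then kap K (g w) else 0) =
        (if X.res (w 0) = X.res (X.lft (X.res (w 0) / X.res (w 1))) * X.res (w 1) ∧ X.res (w 2) = 0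
          then kap K (g w) else 0) := by rw [if_pos hc, if_pos h]
      _ ≤ _ := Finset.single_le_sum (f := fun t : F =>
          if X.res (w 0) = X.res (X.lft t) * X.res (w 1) ∧ X.res (w 2) = 0 then kap K (g w) else 0)
          (fun _ _ => Nat.zero_le _) (Finset.mem_univ _)
  · rw [if_neg h]; exact Nat.zero_le _

theorem Ctx.total_le (K : Pt R → ℕ) (g : (Fin 3 → R) ≃ₗ[R] (Fin 3 → R)) :
    (∑ y : Fin 3 → R, kap K y) ≤
      X.C K g + ((∑ t : F, X.Rr K ((shear (X.lft t)).trans g)) + X.Rr K (swp.trans g)) := by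
  classical
  rw [← Equiv.sum_comp g.toEquiv]
  simp only [X.Rr_shear, X.Rr_swp]
  unfold Ctx.C
  rw [Finset.sum_comm, ← Finset.sum_add_distrib, ← Finset.sum_add_distrib]
  refine Finset.sum_le_sum fun w _ => ?_
  by_cases h1 : X.res (w 1) = 0
  · by_cases h2 : X.res (w 2) = 0
    · simp [h1, h2]
    · simp [h1, h2]
  · have hc : X.res (w 1) ≠ 0 ∧ X.res (w 2) = X.res (X.lft (X.res (w 2) / X.res (w 1))) * X.res (w 1) := by
      refine ⟨h1, ?_⟩
      rw [X.res_lft, div_mul_cancel₀ _ h1]
    have h3 : kap K (g w) ≤ ∑ t : F,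
        if X.res (w 1) ≠ 0 ∧ X.res (w 2) = X.res (X.lft t) * X.res (w 1) then kap K (g w) else 0 := by
      calc kap K (g w) = (if X.res (w 1) ≠ 0 ∧
              X.res (w 2) = X.res (X.lft (X.res (w 2) / X.res (w 1))) * X.res (w 1)
              then kap K (g w) else 0) := by rw [if_pos hc]
        _ ≤ _ := Finset.single_le_sum (f := fun t : F =>
            if X.res (w 1) ≠ 0 ∧ X.res (w 2) = X.res (X.lft t) * X.res (w 1) then kap K (g w) else 0)
            (fun _ _ => Nat.zero_le _) (Finset.mem_univ _)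
    have h4 : kap K (g.toEquiv w) = kap K (g w) := rfl
    rw [h4]
    omega

include X in
theorem Ctx.upper (K : Pt R → ℕ) (n : ℕ) (hK : ∀ L : Ln R, lineMult K L ≤ n)
    (hn : Fintype.card F ^ 2 ≤ n) :
    size K + Fintype.card F ^ 3 ≤ Fintype.card F * (Fintype.card F + 1) * n := by
  classical
  set q := Fintype.card F with hq
  set N := Fintype.card Rˣ with hN
  have hNpos : 0 < N := Fintype.card_pos
  have hW := X.sum_all K
  rw [← hN] at hW
  have hgoal : N * (size K + q ^ 3) ≤ N * (q * (q + 1) * n) := by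
    by_cases hA : ∃ g : (Fin 3 → R) ≃ₗ[R] (Fin 3 → R), N * (q * (q - 1)) < X.C K g
    · obtain ⟨g, hg⟩ := hA
      have hT := X.total_le K g
      rw [hW] at hT
      -- bounds for the directions
      have hS1 : ∀ t : F, X.Rr K ((shear (X.lft t)).trans g) + N * q ^ 2 ≤ q * (N * n) := fun t =>
        X.Rr_heavy K n hK _ (by rw [X.C_shear]; exact hg)
      have hS2 : X.Rr K (swp.trans g) + N * q ^ 2 ≤ q * (N * n) :=
        X.Rr_heavy K n hK _ (by rw [X.C_swp]; exact hg)
      have hC1 : ∀ t : F, X.Rr K ((shear (X.lft t)).trans g) + X.C K g ≤ q * (N * n) := fun t => by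
        have := X.C_add_Rr K n hK ((shear (X.lft t)).trans g)
        rw [X.C_shear] at this
        rw [add_comm]; exact this
      have hC2 : X.Rr K (swp.trans g) + X.C K g ≤ q * (N * n) := by
        have := X.C_add_Rr K n hK (swp.trans g)
        rw [X.C_swp] at this
        rw [add_comm]; exact this
      have hsum1 : (∑ t : F, X.Rr K ((shear (X.lft t)).trans g)) + q * (N * q ^ 2) ≤ q * (q * (N * n)) := by
        have := Finset.sum_le_sum (s := (Finset.univ : Finset F)) fun t _ => hS1 t
        rw [Finset.sum_add_distrib] at this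
        simpa [hq] using this
      have hsum2 : (∑ t : F, X.Rr K ((shear (X.lft t)).trans g)) + q * X.C K g ≤ q * (q * (N * n)) := by
        have := Finset.sum_le_sum (s := (Finset.univ : Finset F)) fun t _ => hC1 t
        rw [Finset.sum_add_distrib] at this
        simpa [hq] using this
      by_cases hle : X.C K g ≤ N * q ^ 2
      · nlinarith [hT, hS2, hsum1, hle]
      · push Not at hle
        have : q * (N * q ^ 2) ≤ q * X.C K g := Nat.mul_le_mul_left _ hle.le
        nlinarith [hT, hC2, hsum2, this]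
    · push Not at hA
      have hR : ∀ g, X.Rr K g ≤ q * (N * (q * (q - 1))) := fun g => by
        refine (X.Rr_le K g).trans ?_
        calc _ ≤ ∑ t : F, N * (q * (q - 1)) := Finset.sum_le_sum fun t _ => hA _
          _ = _ := by simp [hq]
      have hT := X.total_le K (LinearEquiv.refl R _)
      rw [hW] at hT
      have h1 : (∑ t : F, X.Rr K ((shear (X.lft t)).trans (LinearEquiv.refl R _))) ≤
          q * (q * (N * (q * (q - 1)))) := by
        calc _ ≤ ∑ t : F, q * (N * (q * (q - 1))) := Finset.sum_le_sum fun t _ => hR _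
          _ = _ := by simp [hq]
      have h2 := hA (LinearEquiv.refl R _)
      have h3 := hR (swp.trans (LinearEquiv.refl R _))
      obtain ⟨p, hp⟩ : ∃ p, q = p + 1 := ⟨q - 1, by have : 0 < q := Fintype.card_pos; omega⟩
      have hp1 : q - 1 = p := by omega
      rw [hp1] at h1 h2 h3
      have h4 : N * size K ≤ N * (q * p) * (q ^ 2 + q + 1) := by nlinarith
      have h5 : N * (q * p) * (q ^ 2 + q + 1) + N * q = N * q ^ 4 := by rw [hp]; ring
      have h6 : N * (q * (q + 1) * q ^ 2) ≤ N * (q * (q + 1) * n) := by gcongr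
      nlinarith
  exact Nat.le_of_mul_le_mul_left hgoal hNpos

end

/-! ### lines are kernels -/

section

variable {R F : Type u} [CommRing R] [Field F] (X : Ctx R F)
include X

theorem Ctx.line_kernel (L : Submodule R (Fin 3 → R)) (hL : IsLine R L) :
    ∃ a : Fin 3 → R, (∃ i, X.res (a i) ≠ 0) ∧
      ∀ y, y ∈ L ↔ a 0 * y 0 + a 1 * y 1 + a 2 * y 2 = 0 := by
  obtain ⟨b⟩ := hL
  obtain ⟨u, hu⟩ : ∃ u : Fin 3 → R, u = (b 0 : Fin 3 → R) := ⟨_, rfl⟩
  obtain ⟨v, hv⟩ : ∃ v : Fin 3 → R, v = (b 1 : Fin 3 → R) := ⟨_, rfl⟩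
  have huL : u ∈ L := hu ▸ (b 0).2
  have hvL : v ∈ L := hv ▸ (b 1).2
  have hli : LinearIndependent F ![fun i => X.res (u i), fun i => X.res (v i)] := by
    rw [LinearIndependent.pair_iff]
    intro s t hst
    obtain ⟨s', rfl⟩ := X.res_surj s
    obtain ⟨t', rfl⟩ := X.res_surj t
    have h1 : (X.tau 1 * s') • b 0 + (X.tau 1 * t') • b 1 = 0 := by
      apply Subtype.ext
      funext i
      have h2 := congrFun hst i
      simp only [Pi.add_apply, Pi.smul_apply, smul_eq_mul, Pi.zero_apply] at h2
      simp only [Submodule.coe_add, SetLike.val_smul, Pi.add_apply, Pi.smul_apply, smul_eq_mul,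
        ZeroMemClass.coe_zero, Pi.zero_apply, ← hu, ← hv]
      have h3 : X.tau 1 * s' * u i + X.tau 1 * t' * v i = X.tau 1 * (s' * u i + t' * v i) := by ring
      have h4 : X.res (s' * u i + t' * v i) = 0 := by simpa using h2
      rw [h3, X.tau_mul, h4]; simp
    have h4 := Fintype.linearIndependent_iff.1 b.linearIndependent
      ![X.tau 1 * s', X.tau 1 * t'] (by simpa [Fin.sum_univ_two] using h1)
    have h5 := h4 0
    have h6 := h4 1
    simp only [Matrix.cons_val_zero, Matrix.cons_val_one, X.tau_mul, one_mul] at h5 h6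
    exact ⟨X.tau_inj (by simpa using h5), X.tau_inj (by simpa using h6)⟩
  have hcross := crossProduct_ne_zero_iff_linearIndependent.2 hli
  have hspan : ∀ y ∈ L, ∃ r s : R, y = r • u + s • v := by
    intro y hy
    refine ⟨b.repr ⟨y, hy⟩ 0, b.repr ⟨y, hy⟩ 1, ?_⟩
    have := b.sum_repr ⟨y, hy⟩
    rw [Fin.sum_univ_two] at this
    have h2 := congrArg Subtype.val this
    simp only [Submodule.coe_add, SetLike.val_smul, ← hu, ← hv] at h2
    exact h2.symm
  refine ⟨![u 1 * v 2 - u 2 * v 1, u 2 * v 0 - u 0 * v 2, u 0 * v 1 - u 1 * v 0], ?_, ?_⟩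
  · by_contra hcon
    push Not at hcon
    apply hcross
    rw [cross_apply]
    have h0 := hcon 0
    have h1 := hcon 1
    have h2 := hcon 2
    simp only [Matrix.cons_val_zero, Matrix.cons_val_one, Matrix.cons_val, map_sub, map_mul] at h0 h1 h2
    funext i
    fin_cases i
    · simpa using h0
    · simpa using h1
    · simpa using h2
  · intro y
    constructor
    · intro hy
      obtain ⟨r, s, rfl⟩ := hspan y hy
      simp only [Matrix.cons_val_zero, Matrix.cons_val_one, Matrix.cons_val, Pi.add_apply, Pi.smul_apply,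
        smul_eq_mul]
      ring
    · intro hy
      simp only [Matrix.cons_val_zero, Matrix.cons_val_one, Matrix.cons_val] at hy
      have hex : ∃ i, X.res ((![u 1 * v 2 - u 2 * v 1, u 2 * v 0 - u 0 * v 2,
          u 0 * v 1 - u 1 * v 0] : Fin 3 → R) i) ≠ 0 := by
        by_contra hcon
        push Not at hcon
        apply hcross
        rw [cross_apply]
        have h0 := hcon 0
        have h1 := hcon 1
        have h2 := hcon 2
        simp only [Matrix.cons_val_zero, Matrix.cons_val_one, Matrix.cons_val, map_sub, map_mul] at h0 h1 h2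
        funext i
        fin_cases i
        · simpa using h0
        · simpa using h1
        · simpa using h2
      obtain ⟨i, hi⟩ := hex
      have hunit := X.unit _ hi
      obtain ⟨w, hw⟩ := hunit.exists_right_inv
      have key : ∀ r s : R, y = r • u + s • v → y ∈ L := by
        intro r s h
        rw [h]
        exact L.add_mem (L.smul_mem _ huL) (L.smul_mem _ hvL)
      fin_cases i
      · simp only [Fin.zero_eta, Matrix.cons_val_zero] at hw
        apply key (w * (y 1 * v 2 - y 2 * v 1)) (w * (u 1 * y 2 - u 2 * y 1))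
        funext j
        fin_cases j
        · simp only [Fin.zero_eta, Pi.add_apply, Pi.smul_apply, smul_eq_mul]
          linear_combination (w) * hy - (y 0) * hw
        · simp only [Fin.mk_one, Pi.add_apply, Pi.smul_apply, smul_eq_mul]
          linear_combination - (y 1) * hw
        · simp only [Fin.reduceFinMk, Pi.add_apply, Pi.smul_apply, smul_eq_mul]
          linear_combination - (y 2) * hw
      · simp only [Fin.mk_one, Matrix.cons_val_one, Matrix.cons_val_zero] at hw
        apply key (w * (y 2 * v 0 - y 0 * v 2)) (w * (u 2 * y 0 - u 0 * y 2))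
        funext j
        fin_cases j
        · simp only [Fin.zero_eta, Pi.add_apply, Pi.smul_apply, smul_eq_mul]
          linear_combination - (y 0) * hw
        · simp only [Fin.mk_one, Pi.add_apply, Pi.smul_apply, smul_eq_mul]
          linear_combination (w) * hy - (y 1) * hw
        · simp only [Fin.reduceFinMk, Pi.add_apply, Pi.smul_apply, smul_eq_mul]
          linear_combination - (y 2) * hw
      · simp only [Fin.reduceFinMk, Matrix.cons_val] at hw
        apply key (w * (y 0 * v 1 - y 1 * v 0)) (w * (u 0 * y 1 - u 1 * y 0))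
        funext j
        fin_cases j
        · simp only [Fin.zero_eta, Pi.add_apply, Pi.smul_apply, smul_eq_mul]
          linear_combination - (y 0) * hw
        · simp only [Fin.mk_one, Pi.add_apply, Pi.smul_apply, smul_eq_mul]
          linear_combination - (y 1) * hw
        · simp only [Fin.reduceFinMk, Pi.add_apply, Pi.smul_apply, smul_eq_mul]
          linear_combination (w) * hy - (y 2) * hw

/-- three normal forms of a line -/
theorem Ctx.line_forms (L : Submodule R (Fin 3 → R)) (hL : IsLine R L) :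
    (∃ α γ : R, ∀ y, y ∈ L ↔ y 1 = α * y 0 + γ * y 2) ∨
    (∃ α γ : R, X.res α = 0 ∧ ∀ y, y ∈ L ↔ y 0 = α * y 1 + γ * y 2) ∨
    (∃ α β : F, ∀ y, y ∈ L ↔ y 2 = X.tau α * y 0 + X.tau β * y 1) := by
  obtain ⟨a, ha, hL⟩ := X.line_kernel L hL
  by_cases h1 : X.res (a 1) = 0
  · by_cases h0 : X.res (a 0) = 0
    · right; right
      have h2 : X.res (a 2) ≠ 0 := by
        obtain ⟨i, hi⟩ := ha
        fin_cases i
        · exact absurd h0 hi
        · exact absurd h1 hi
        · exact hi
      obtain ⟨w, hw⟩ := (X.unit _ h2).exists_right_inv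
      obtain ⟨α, hα⟩ := X.ker (-(w * a 0)) (by simp [h0])
      obtain ⟨β, hβ⟩ := X.ker (-(w * a 1)) (by simp [h1])
      refine ⟨α, β, fun y => ?_⟩
      rw [hL, hα, hβ]
      constructor
      · intro h; linear_combination w * h - (y 2) * hw
      · intro h; linear_combination (a 2) * h - (a 0 * y 0 + a 1 * y 1) * hw
    · right; left
      obtain ⟨w, hw⟩ := (X.unit _ h0).exists_right_inv
      refine ⟨-(w * a 1), -(w * a 2), by simp [h1], fun y => ?_⟩
      rw [hL]
      constructor
      · intro h; linear_combination w * h - (y 0) * hw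
      · intro h; linear_combination (a 0) * h - (a 1 * y 1 + a 2 * y 2) * hw
  · left
    obtain ⟨w, hw⟩ := (X.unit _ h1).exists_right_inv
    refine ⟨-(w * a 0), -(w * a 2), fun y => ?_⟩
    rw [hL]
    constructor
    · intro h; linear_combination w * h - (y 1) * hw
    · intro h; linear_combination (a 1) * h - (a 0 * y 0 + a 2 * y 2) * hw

end

/-! ### the example -/

section

/-- triples and vectors -/
def e3 (R : Type u) : R × R × R ≃ (Fin 3 → R) where
  toFun p := ![p.1, p.2.1, p.2.2]
  invFun y := (y 0, y 1, y 2)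
  left_inv p := by simp
  right_inv y := by funext i; fin_cases i <;> simp

theorem sum3 {R : Type u} [Fintype R] (f : (Fin 3 → R) → ℕ) :
    (∑ y : Fin 3 → R, f y) = ∑ a : R, ∑ b : R, ∑ c : R, f ![a, b, c] := by
  rw [← Equiv.sum_comp (e3 R), Fintype.sum_prod_type]
  refine Finset.sum_congr rfl fun a _ => ?_
  rw [Fintype.sum_prod_type]
  rfl

theorem sum_div {F : Type u} [Field F] [Fintype F] (f : F → ℕ) {c : F} (hc : c ≠ 0) :
    (∑ z : F, f (z / c)) = ∑ z : F, f z := by
  have := Equiv.sum_comp (Equiv.mulRight₀ c⁻¹ (inv_ne_zero hc)) f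
  rw [← this]
  refine Finset.sum_congr rfl fun z _ => ?_
  rw [div_eq_mul_inv]; rfl

theorem sum_affine {F : Type u} [Field F] [Fintype F] (f : F → ℕ) (α : F) {β x : F} (hβ : β ≠ 0) (hx : x ≠ 0) :
    (∑ y : F, f ((α * x + β * y) / x)) = ∑ z : F, f z := by
  have h := Equiv.sum_comp ((Equiv.mulLeft₀ (β / x) (div_ne_zero hβ hx)).trans (Equiv.addLeft α)) f
  rw [← h]
  refine Finset.sum_congr rfl fun y _ => ?_
  congr 1
  change (α * x + β * y) / x = α + (β / x) * y
  field_simp

variable {R F : Type u} [CommRing R] [Field F] (X : Ctx R F)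

open Classical in
/-- inverse of tau -/
noncomputable def Ctx.sig (r : R) : F := if h : ∃ f, X.tau f = r then h.choose else 0

theorem Ctx.sig_tau (f : F) : X.sig (X.tau f) = f := by
  have h : ∃ f', X.tau f' = X.tau f := ⟨f, rfl⟩
  rw [Ctx.sig, dif_pos h]
  exact X.tau_inj h.choose_spec

open Classical in
/-- the vector form of the example -/
noncomputable def Ctx.k0 (A B : F → ℕ) (y : Fin 3 → R) : ℕ :=
  if X.res (y 2) ≠ 0 then 1
  else if X.res (y 0) ≠ 0 then A (X.sig (y 2) / X.res (y 0))
  else if X.res (y 1) ≠ 0 then B (X.sig (y 2) / X.res (y 1))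
  else 0

theorem Ctx.k0_not_uni (A B : F → ℕ) {y : Fin 3 → R} (h : ¬ uni y) : X.k0 A B y = 0 := by
  rw [X.not_uni_iff] at h
  simp [Ctx.k0, h 0, h 1, h 2]

theorem Ctx.k0_smul (A B : F → ℕ) (u : Rˣ) (y : Fin 3 → R) : X.k0 A B (u • y) = X.k0 A B y := by
  have hu : X.res (u : R) ≠ 0 := (X.unit_iff _).1 u.isUnit
  have h1 : ∀ i, (u • y) i = (u : R) * y i := fun i => by simp [Units.smul_def]
  have e : ∀ i, X.res ((u • y) i) = X.res (u : R) * X.res (y i) := fun i => by rw [h1, map_mul]
  have e0 : ∀ i, X.res ((u • y) i) ≠ 0 ↔ X.res (y i) ≠ 0 := fun i => by rw [e]; simp [hu]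
  unfold Ctx.k0
  by_cases h2 : X.res (y 2) ≠ 0
  · rw [if_pos h2, if_pos ((e0 2).2 h2)]
  · rw [if_neg h2, if_neg (fun h => h2 ((e0 2).1 h))]
    push Not at h2
    obtain ⟨z, hz⟩ := X.ker _ h2
    rw [h1 2, ← hz, X.mul_tau, X.sig_tau, X.sig_tau, e 0, e 1, mul_div_mul_left _ _ hu,
      mul_div_mul_left _ _ hu]
    by_cases h3 : X.res (y 0) ≠ 0
    · rw [if_pos h3, if_pos (mul_ne_zero hu h3)]
    · rw [if_neg h3, if_neg (by push Not at h3 ⊢; rw [h3, mul_zero])]
      by_cases h4 : X.res (y 1) ≠ 0
      · rw [if_pos h4, if_pos (mul_ne_zero hu h4)]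
      · rw [if_neg h4, if_neg (by push Not at h4 ⊢; rw [h4, mul_zero])]

/-- the example -/
noncomputable def Ctx.Kex (A B : F → ℕ) (P : Pt R) : ℕ := X.k0 A B (X.rep P)

theorem Ctx.kap_Kex (A B : F → ℕ) (y : Fin 3 → R) : kap (X.Kex A B) y = X.k0 A B y := by
  by_cases h : uni y
  · rw [kap, dif_pos h]
    obtain ⟨⟨P, u⟩, hPu⟩ := X.equivUni.surjective ⟨y, h⟩
    have h1 : u • X.rep P = y := by rw [← X.equivUni_apply, hPu]
    have h2 : (⟨Submodule.span R {y}, isPoint_span h⟩ : Pt R) = P := by
      apply Subtype.ext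
      simp only
      rw [← h1, span_units_smul, X.rep_span]
    rw [h2, Ctx.Kex, ← h1, X.k0_smul]
  · rw [kap_zero _ h, X.k0_not_uni A B h]

variable [Fintype R] [Fintype F]

open Classical in
/-- sum over the last coordinate -/
theorem Ctx.inner (A B : F → ℕ) (s : ℕ) (hA : ∑ f, A f = s) (hB : ∑ f, B f = s) (f0 f1 : R → R) (x0 x1 : F)
    (h0 : ∀ c, X.res c = 0 → X.res (f0 c) = x0) (h1 : ∀ c, X.res c = 0 → X.res (f1 c) = x1) :
    (∑ c : R, X.k0 A B ![f0 c, f1 c, c]) = Fintype.card Rˣ + if x0 ≠ 0 ∨ x1 ≠ 0 then s else 0 := by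
  have hsplit : ∀ c : R, X.k0 A B ![f0 c, f1 c, c] =
      (if X.res c ≠ 0 then 1 else 0) + (if X.res c = 0 then
        (if x0 ≠ 0 then A (X.sig c / x0) else if x1 ≠ 0 then B (X.sig c / x1) else 0) else 0) := by
    intro c
    by_cases hc : X.res c = 0
    · simp only [Ctx.k0, Matrix.cons_val_zero, Matrix.cons_val_one, Matrix.cons_val, hc, h0 c hc, h1 c hc]
      simp
    · simp [Ctx.k0, hc]
  rw [Finset.sum_congr rfl fun c _ => hsplit c, Finset.sum_add_distrib, X.sum_ker]
  congr 1
  · rw [← Finset.sum_filter, Finset.sum_const, smul_eq_mul, mul_one, ← Finset.card_univ]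
    symm
    refine Finset.card_bij (fun u _ => (u : R)) ?_ ?_ ?_
    · intro u _
      simp only [Finset.mem_filter, Finset.mem_univ, true_and]
      exact (X.unit_iff _).1 u.isUnit
    · intro a _ b _ h; exact Units.ext h
    · intro r hr
      simp only [Finset.mem_filter, Finset.mem_univ, true_and] at hr
      obtain ⟨u, hu⟩ := X.unit r hr
      exact ⟨u, Finset.mem_univ _, hu⟩
  · simp only [X.sig_tau]
    by_cases hx0 : x0 = 0
    · by_cases hx1 : x1 = 0
      · simp [hx0, hx1]
      · simp only [hx0, hx1, ne_eq, not_true_eq_false, if_false, not_false_eq_true, if_true, false_or]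
        rw [sum_div B hx1, hB]
    · simp only [hx0, ne_eq, not_false_eq_true, if_true, true_or]
      rw [sum_div A hx0, hA]

end

section

variable {R F : Type u} [CommRing R] [Field F] (X : Ctx R F) [Fintype R] [Fintype F]

open Classical in
omit [Fintype R] in
theorem sum_ne_zero (s : ℕ) :
    (∑ x : F, if x ≠ 0 then s else 0) = (Fintype.card F - 1) * s := by
  rw [← Finset.sum_filter, Finset.filter_ne', Finset.sum_const, Finset.card_erase_of_mem (Finset.mem_univ _),
    Finset.card_univ, smul_eq_mul]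

open Classical in
theorem Ctx.sum_res_ne (s : ℕ) :
    (∑ a : R, if X.res a ≠ 0 then s else 0) = Fintype.card Rˣ * s := by
  rw [X.sum_res (fun x => if x ≠ 0 then s else 0), sum_ne_zero, X.card_units, mul_assoc]

theorem Ctx.size_Kex (A B : F → ℕ) (s : ℕ) (hA : ∑ f, A f = s) (hB : ∑ f, B f = s) :
    size (X.Kex A B) = Fintype.card F ^ 4 + Fintype.card F * (Fintype.card F + 1) * s := by
  classical
  have h := X.sum_all (X.Kex A B)
  simp only [X.kap_Kex] at h
  rw [sum3] at h
  have h1 : ∀ a b : R, (∑ c : R, X.k0 A B ![a, b, c]) =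
      Fintype.card Rˣ + if X.res a ≠ 0 ∨ X.res b ≠ 0 then s else 0 := fun a b =>
    X.inner A B s hA hB (fun _ => a) (fun _ => b) (X.res a) (X.res b) (fun _ _ => rfl) (fun _ _ => rfl)
  simp only [h1, Finset.sum_add_distrib] at h
  have h2 : ∀ a : R, (∑ b : R, if X.res a ≠ 0 ∨ X.res b ≠ 0 then s else 0) =
      Fintype.card F * (∑ y : F, if X.res a ≠ 0 ∨ y ≠ 0 then s else 0) := fun a =>
    X.sum_res (fun y => if X.res a ≠ 0 ∨ y ≠ 0 then s else 0)
  rw [Finset.sum_congr rfl fun a _ => h2 a, ← Finset.mul_sum,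
    X.sum_res (fun x => ∑ y : F, if x ≠ 0 ∨ y ≠ 0 then s else 0)] at h
  have h3 : (∑ x : F, ∑ y : F, if x ≠ 0 ∨ y ≠ 0 then s else 0) + s = Fintype.card F ^ 2 * s := by
    have h4 : ∀ x : F, (∑ y : F, if x ≠ 0 ∨ y ≠ 0 then s else 0) + (if x = 0 then s else 0) =
        Fintype.card F * s := by
      intro x
      by_cases hx : x = 0
      · simp only [hx, ne_eq, not_true_eq_false, false_or, if_true]
        have : (∑ y : F, if ¬ y = 0 then s else 0) = (Fintype.card F - 1) * s := sum_ne_zero s
        rw [this]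
        have hq : 0 < Fintype.card F := Fintype.card_pos
        obtain ⟨p, hp⟩ : ∃ p, Fintype.card F = p + 1 := ⟨Fintype.card F - 1, by omega⟩
        rw [hp]; simp; ring
      · simp [hx]
    have h5 := Finset.sum_congr (rfl : (Finset.univ : Finset F) = Finset.univ) fun x _ => h4 x
    rw [Finset.sum_add_distrib] at h5
    simp only [Finset.sum_ite_eq', Finset.mem_univ, if_true, Finset.sum_const, Finset.card_univ,
      smul_eq_mul] at h5
    rw [h5]; ring
  simp only [Finset.sum_const, Finset.card_univ, smul_eq_mul, X.card_R] at h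
  have hN := X.card_units
  have hq : 1 < Fintype.card F := Fintype.one_lt_card
  obtain ⟨p, hp⟩ : ∃ p, Fintype.card F = p + 1 := ⟨Fintype.card F - 1, by omega⟩
  have hp1 : Fintype.card F - 1 = p := by omega
  rw [hp1, hp] at hN
  rw [hp] at h h3 ⊢
  have hppos : 0 < p := by omega
  have hNpos : 0 < Fintype.card Rˣ := Fintype.card_pos
  have h6 : (∑ x : F, ∑ y : F, if x ≠ 0 ∨ y ≠ 0 then s else 0) = p * (p + 2) * s := by
    have : (p + 1) ^ 2 * s = p * (p + 2) * s + s := by ring
    omega
  rw [h6] at h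
  have h7 : Fintype.card Rˣ * size (X.Kex A B) =
      Fintype.card Rˣ * ((p + 1) ^ 4 + (p + 1) * (p + 1 + 1) * s) := by
    rw [← h, hN]; ring
  exact Nat.eq_of_mul_eq_mul_left hNpos h7

open Classical in
omit [Field F] [Fintype F] X in
theorem ite_sum3 (E : (Fin 3 → R) → Prop) (E' : R → R → R → Prop) (f : (Fin 3 → R) → ℕ)
    (h : ∀ a b c, E ![a, b, c] ↔ E' a b c) :
    (∑ a : R, ∑ b : R, ∑ c : R, if E ![a, b, c] then f ![a, b, c] else 0) =
      ∑ a : R, ∑ b : R, ∑ c : R, if E' a b c then f ![a, b, c] else 0 := by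
  refine Finset.sum_congr rfl fun a _ => Finset.sum_congr rfl fun b _ => Finset.sum_congr rfl fun c _ => ?_
  exact if_congr (h a b c) rfl rfl

open Classical in
theorem Ctx.lineMult_Kex (A B : F → ℕ) (s n : ℕ) (hA : ∑ f, A f = s) (hB : ∑ f, B f = s)
    (hn : n = Fintype.card F ^ 2 + s) (hA1 : ∀ f, A f ≤ 1) (hB0 : B 0 = 0)
    (hB1 : ∀ f, B f + s ≤ Fintype.card F) (L : Ln R) : lineMult (X.Kex A B) L ≤ n := by
  have hNpos : 0 < Fintype.card Rˣ := Fintype.card_pos
  have hcard := X.card_R
  have h := X.sum_line (X.Kex A B) L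
  simp only [X.kap_Kex] at h
  refine Nat.le_of_mul_le_mul_left (c := Fintype.card Rˣ) ?_ hNpos
  rw [← h, sum3]
  rcases X.line_forms L.1 L.2 with ⟨α, γ, hL⟩ | ⟨α, γ, hα, hL⟩ | ⟨α, β, hL⟩
  · rw [ite_sum3 (fun y => y ∈ L.1) (fun a b c => b = α * a + γ * c) (X.k0 A B)
      (fun a b c => by rw [hL]; rfl)]
    have h1 : ∀ a : R, (∑ b : R, ∑ c : R, if b = α * a + γ * c then X.k0 A B ![a, b, c] else 0) =
        Fintype.card Rˣ + if X.res a ≠ 0 then s else 0 := by
      intro a
      rw [Finset.sum_comm]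
      simp only [Finset.sum_ite_eq', Finset.mem_univ, if_true]
      rw [X.inner A B s hA hB (fun _ => a) (fun c => α * a + γ * c) (X.res a) (X.res α * X.res a)
        (fun _ _ => rfl) (fun c hc => by rw [map_add, map_mul, map_mul, hc]; ring)]
      congr 1
      by_cases ha : X.res a = 0
      · simp [ha]
      · simp [ha]
    rw [Finset.sum_congr rfl fun a _ => h1 a, Finset.sum_add_distrib, X.sum_res_ne]
    simp only [Finset.sum_const, Finset.card_univ, smul_eq_mul, hcard]
    apply le_of_eq; rw [hn]; ring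
  · rw [ite_sum3 (fun y => y ∈ L.1) (fun a b c => a = α * b + γ * c) (X.k0 A B)
      (fun a b c => by rw [hL]; rfl)]
    rw [Finset.sum_comm]
    have h1 : ∀ b : R, (∑ a : R, ∑ c : R, if a = α * b + γ * c then X.k0 A B ![a, b, c] else 0) =
        Fintype.card Rˣ + if X.res b ≠ 0 then s else 0 := by
      intro b
      rw [Finset.sum_comm]
      simp only [Finset.sum_ite_eq', Finset.mem_univ, if_true]
      rw [X.inner A B s hA hB (fun c => α * b + γ * c) (fun _ => b) 0 (X.res b)
        (fun c hc => by rw [map_add, map_mul, map_mul, hc, hα]; ring) (fun _ _ => rfl)]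
      simp
    rw [Finset.sum_congr rfl fun a _ => h1 a, Finset.sum_add_distrib, X.sum_res_ne]
    simp only [Finset.sum_const, Finset.card_univ, smul_eq_mul, hcard]
    apply le_of_eq; rw [hn]; ring
  · rw [ite_sum3 (fun y => y ∈ L.1) (fun a b c => c = X.tau α * a + X.tau β * b) (X.k0 A B)
      (fun a b c => by rw [hL]; rfl)]
    simp only [Finset.sum_ite_eq', Finset.mem_univ, if_true]
    set G : F → F → ℕ := fun x y => if x ≠ 0 then A ((α * x + β * y) / x)
      else if y ≠ 0 then B ((α * x + β * y) / y) else 0 with hG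
    have h1 : ∀ a b : R, X.k0 A B ![a, b, X.tau α * a + X.tau β * b] = G (X.res a) (X.res b) := by
      intro a b
      have e : X.tau α * a + X.tau β * b = X.tau (α * X.res a + β * X.res b) := by
        rw [X.tau_mul, X.tau_mul, map_add]
      simp only [Ctx.k0, Matrix.cons_val_zero, Matrix.cons_val_one, Matrix.cons_val, hG]
      rw [e, X.sig_tau, X.res_tau]
      simp
    simp only [h1]
    rw [Finset.sum_congr rfl fun a _ => X.sum_res (G (X.res a)), ← Finset.mul_sum,
      X.sum_res (fun x => ∑ y : F, G x y)]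
    have h2 : ∀ x : F, (∑ y : F, G x y) ≤ if x = 0 then (Fintype.card F - 1) * B β
        else Fintype.card F - B β := by
      intro x
      by_cases hx : x = 0
      · rw [if_pos hx]
        have : ∀ y : F, G x y = if y ≠ 0 then B β else 0 := by
          intro y
          simp only [hG, hx]
          by_cases hy : y = 0
          · simp [hy]
          · simp [hy]
        rw [Finset.sum_congr rfl fun y _ => this y, sum_ne_zero]
      · rw [if_neg hx]
        have h3 : ∀ y : F, G x y = A ((α * x + β * y) / x) := by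
          intro y; simp [hG, hx]
        rw [Finset.sum_congr rfl fun y _ => h3 y]
        by_cases hβ : β = 0
        · subst hβ
          rw [hB0]
          calc _ ≤ ∑ y : F, 1 := Finset.sum_le_sum fun y _ => hA1 _
            _ = _ := by simp
        · rw [sum_affine A α hβ hx, hA]
          have := hB1 β
          omega
    have h4 : (∑ x : F, ∑ y : F, G x y) ≤ (Fintype.card F - 1) * Fintype.card F := by
      refine (Finset.sum_le_sum fun x _ => h2 x).trans ?_
      have h6 : ∀ x : F, (if x = 0 then (Fintype.card F - 1) * B β else Fintype.card F - B β) =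
          (if x = 0 then (Fintype.card F - 1) * B β else 0) +
            (if x ≠ 0 then Fintype.card F - B β else 0) := by
        intro x
        by_cases hx : x = 0
        · simp [hx]
        · simp [hx]
      rw [Finset.sum_congr rfl fun x _ => h6 x, Finset.sum_add_distrib, sum_ne_zero]
      simp only [Finset.sum_ite_eq', Finset.mem_univ, if_true]
      rw [← Nat.mul_add]
      have := hB1 β
      have h5 : B β + (Fintype.card F - B β) = Fintype.card F := by omega
      rw [h5]
    rw [X.card_units]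
    calc Fintype.card F * (Fintype.card F * ∑ x : F, ∑ y : F, G x y)
        ≤ Fintype.card F * (Fintype.card F * ((Fintype.card F - 1) * Fintype.card F)) := by gcongr
      _ = Fintype.card F * (Fintype.card F - 1) * (Fintype.card F ^ 2) := by ring
      _ ≤ _ := by rw [hn]; gcongr; omega

omit [Fintype R] in
theorem exists_A (s : ℕ) (hs : s ≤ Fintype.card F) : ∃ A : F → ℕ, (∑ f, A f = s) ∧ ∀ f, A f ≤ 1 := by
  classical
  obtain ⟨T, _, hT⟩ := Finset.exists_subset_card_eq (s := (Finset.univ : Finset F)) (n := s) (by simpa using hs)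
  refine ⟨fun f => if f ∈ T then 1 else 0, ?_, ?_⟩
  · simp [hT]
  · intro f; dsimp only; split_ifs <;> omega

omit [Fintype R] in
theorem exists_B (s a : ℕ) (ha : 1 ≤ a) (has : a ≤ s) (hs : s + a ≤ Fintype.card F) :
    ∃ B : F → ℕ, (∑ f, B f = s) ∧ B 0 = 0 ∧ (∀ f, B f + s ≤ Fintype.card F) ∧ ∃ f, B f = a := by
  classical
  obtain ⟨T, hT1, hT⟩ := Finset.exists_subset_card_eq (s := ((Finset.univ : Finset F).erase 0).erase 1)
    (n := s - a) (by
      rw [Finset.card_erase_of_mem (by simp), Finset.card_erase_of_mem (by simp), Finset.card_univ]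
      omega)
  have h1T : (1 : F) ∉ T := fun h => by have := hT1 h; simp at this
  have h0T : (0 : F) ∉ T := fun h => by have := hT1 h; simp at this
  refine ⟨fun f => (if f = 1 then a else 0) + if f ∈ T then 1 else 0, ?_, ?_, ?_, ?_⟩
  · rw [Finset.sum_add_distrib]
    simp [hT]
    omega
  · simp [h0T]
  · intro f
    dsimp only
    by_cases hf : f = 1
    · simp [hf, h1T]; omega
    · simp only [hf, if_false]; split_ifs <;> omega
  · exact ⟨1, by simp [h1T]⟩

include X in
theorem Ctx.main (n a : ℕ) (ha : 1 ≤ a) (h1 : Fintype.card F ^ 2 + a ≤ n)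
    (h2 : n + a ≤ Fintype.card F ^ 2 + Fintype.card F) :
    ∃ K : Pt R → ℕ, IsMaximalArc K (Fintype.card F * (Fintype.card F + 1) * n - Fintype.card F ^ 3) n ∧
      ∃ x : Pt R, K x = a := by
  classical
  obtain ⟨s, hs⟩ : ∃ s, n = Fintype.card F ^ 2 + s := ⟨n - Fintype.card F ^ 2, by omega⟩
  obtain ⟨A, hA, hA1⟩ := exists_A (F := F) s (by omega)
  obtain ⟨B, hB, hB0, hB1, f1, hf1⟩ := exists_B (F := F) s a ha (by omega) (by omega)
  have hsize := X.size_Kex A B s hA hB
  have hk : Fintype.card F * (Fintype.card F + 1) * n - Fintype.card F ^ 3 = size (X.Kex A B) := by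
    rw [hsize, hs]
    have : Fintype.card F * (Fintype.card F + 1) * (Fintype.card F ^ 2 + s) =
      Fintype.card F ^ 4 + Fintype.card F * (Fintype.card F + 1) * s + Fintype.card F ^ 3 := by ring
    omega
  refine ⟨X.Kex A B, ⟨⟨hk.symm, fun L => X.lineMult_Kex A B s n hA hB hs hA1 hB0 hB1 L⟩, ?_⟩, ?_⟩
  · intro K' k' hK'
    have hu := X.upper K' n hK'.2 (by omega)
    rw [hK'.1] at hu
    omega
  · have hy : uni (![0, 1, X.tau f1] : Fin 3 → R) := ⟨1, by simp⟩
    refine ⟨⟨Submodule.span R {![0, 1, X.tau f1]}, isPoint_span hy⟩, ?_⟩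
    have h := X.kap_Kex A B ![0, 1, X.tau f1]
    rw [kap, dif_pos hy] at h
    rw [h]
    simp [Ctx.k0, X.res_tau, X.sig_tau, hf1]

end

/-! ### finite commutative chain rings of nilpotency index two -/

theorem IsChainRingTwo.nontrivial {R : Type u} [CommRing R] (h : IsChainRingTwo R) : Nontrivial R := by
  by_contra hn
  rw [not_nontrivial_iff_subsingleton] at hn
  exact h.rad_ne (Subsingleton.elim _ _)

theorem IsChainRingTwo.isLocalRing {R : Type u} [CommRing R] (h : IsChainRingTwo R) : IsLocalRing R := by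
  haveI := h.nontrivial
  obtain ⟨M, hM⟩ := Ideal.exists_maximal R
  refine IsLocalRing.of_unique_max_ideal ⟨M, hM, fun I hI => ?_⟩
  rcases h.chain I M with hle | hle
  · exact hI.eq_of_le hM.ne_top hle
  · exact (hM.eq_of_le hI.ne_top hle).symm

theorem IsChainRingTwo.exists_ctx {R : Type u} [CommRing R] (h : IsChainRingTwo R) :
    ∃ (F : Type u) (_ : Field F) (_ : Fintype F), Nonempty (Ctx R F) ∧
      Fintype.card F = Nat.card (R ⧸ Ring.jacobson R) := by
  classical
  have := h.finite
  have := h.nontrivial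
  have hloc := h.isLocalRing
  have hJ : Ring.jacobson R = IsLocalRing.maximalIdeal R := IsLocalRing.ringJacobson_eq_maximalIdeal R
  obtain ⟨π, hπJ, hπ⟩ := Submodule.exists_mem_ne_zero_of_ne_bot h.rad_ne
  have hsq : ∀ x y, x ∈ Ring.jacobson R → y ∈ Ring.jacobson R → x * y = 0 := by
    intro x y hx hy
    have : x * y ∈ Ring.jacobson R ^ 2 := by rw [sq]; exact Ideal.mul_mem_mul hx hy
    rw [h.rad_sq] at this
    simpa using this
  have hunit : ∀ r, r ∉ Ring.jacobson R → IsUnit r := by
    intro r hr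
    rw [hJ, IsLocalRing.mem_maximalIdeal] at hr
    simpa [mem_nonunits_iff] using hr
  have hspan : ∀ x ∈ Ring.jacobson R, ∃ r, r * π = x := by
    intro x hx
    rcases h.chain (Ideal.span {x}) (Ideal.span {π}) with hle | hle
    · have := hle (Ideal.mem_span_singleton_self x)
      rw [Ideal.mem_span_singleton'] at this
      exact this
    · have := hle (Ideal.mem_span_singleton_self π)
      rw [Ideal.mem_span_singleton'] at this
      obtain ⟨r, hr⟩ := this
      by_cases hrJ : r ∈ Ring.jacobson R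
      · exact absurd (hr.symm.trans (hsq r x hrJ hx)) hπ
      · obtain ⟨u, hu⟩ := hunit r hrJ
        refine ⟨↑u⁻¹, ?_⟩
        rw [← hr, ← hu, Units.inv_mul_cancel_left]
  haveI hmax : (Ring.jacobson R).IsMaximal := by rw [hJ]; exact IsLocalRing.maximalIdeal.isMaximal R
  letI : Field (R ⧸ Ring.jacobson R) := Ideal.Quotient.field _
  haveI : Finite (R ⧸ Ring.jacobson R) := Finite.of_surjective _ Ideal.Quotient.mk_surjective
  haveI : Fintype (R ⧸ Ring.jacobson R) := Fintype.ofFinite _
  have hle : Ring.jacobson R ≤ LinearMap.ker (LinearMap.toSpanSingleton R R π) := by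
    intro r hr
    rw [LinearMap.mem_ker, LinearMap.toSpanSingleton_apply, smul_eq_mul]
    exact hsq r π hr hπJ
  let T : (R ⧸ Ring.jacobson R) →ₗ[R] R :=
    Submodule.liftQ (Ring.jacobson R) (LinearMap.toSpanSingleton R R π) hle
  have hT : ∀ r : R, T (Ideal.Quotient.mk (Ring.jacobson R) r) = r * π := fun r => rfl
  refine ⟨R ⧸ Ring.jacobson R, inferInstance, inferInstance, ⟨?_⟩, (Nat.card_eq_fintype_card).symm⟩
  exact
    { res := Ideal.Quotient.mk _
      tau := T.toAddMonoidHom
      res_surj := Ideal.Quotient.mk_surjective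
      tau_inj := by
        rw [injective_iff_map_eq_zero]
        intro f hf
        obtain ⟨r, rfl⟩ := Ideal.Quotient.mk_surjective f
        have h1 : r * π = 0 := by rw [← hT]; exact hf
        rw [Ideal.Quotient.eq_zero_iff_mem]
        by_contra hr
        obtain ⟨u, hu⟩ := hunit r hr
        apply hπ
        rw [← hu] at h1
        exact (Units.mul_right_eq_zero u).1 h1
      mul_tau := by
        intro r f
        obtain ⟨s, rfl⟩ := Ideal.Quotient.mk_surjective f
        change r * T (Ideal.Quotient.mk _ s) = T (Ideal.Quotient.mk _ r * Ideal.Quotient.mk _ s)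
        rw [← map_mul, hT, hT, mul_assoc]
      ker := by
        intro r hr
        rw [Ideal.Quotient.eq_zero_iff_mem] at hr
        obtain ⟨s, hs⟩ := hspan r hr
        exact ⟨Ideal.Quotient.mk _ s, (hT s).trans hs⟩
      res_tau := by
        intro f
        obtain ⟨s, rfl⟩ := Ideal.Quotient.mk_surjective f
        change Ideal.Quotient.mk _ (T (Ideal.Quotient.mk _ s)) = 0
        rw [hT, Ideal.Quotient.eq_zero_iff_mem]
        exact Ideal.mul_mem_left _ _ hπJ
      unit := by
        intro r hr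
        apply hunit
        intro h
        exact hr (Ideal.Quotient.eq_zero_iff_mem.2 h) }

theorem general (R : Type u) [CommRing R] (hR : IsChainRingTwo R) (q n a : ℕ)
    (hq : q = Nat.card (R ⧸ Ring.jacobson R)) (ha : 1 ≤ a) (h1 : q ^ 2 + a ≤ n) (h2 : n + a ≤ q ^ 2 + q) :
    ∃ K : Pt R → ℕ, IsMaximalArc K (q * (q + 1) * n - q ^ 3) n ∧ ∃ x : Pt R, K x = a := by
  haveI := hR.finite
  haveI : Fintype R := Fintype.ofFinite R
  obtain ⟨F, hF, hFt, ⟨X⟩, hcard⟩ := hR.exists_ctx
  rw [← hcard] at hq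
  subst hq
  exact X.main n a ha h1 h2

/-! ### a concrete ring -/

theorem zmod25_dvd : ∀ x y : ZMod 25, (∃ r, r * x = y) ∨ (∃ r, r * y = x) := by decide +kernel

theorem zmod25_unit : ∀ x : ZMod 25, (∃ r, r * x = 1) ∨ 5 * x = 0 := by decide +kernel

theorem zmod25_mul : ∀ x y : ZMod 25, 5 * x = 0 → 5 * y = 0 → x * y = 0 := by decide +kernel

theorem isChainRingTwo_zmod25 : IsChainRingTwo (ZMod 25) where
  finite := inferInstance
  chain := by
    intro I J
    by_contra hcon
    rw [not_or] at hcon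
    obtain ⟨h1, h2⟩ := hcon
    obtain ⟨x, hxI, hxJ⟩ := Set.not_subset.1 h1
    obtain ⟨y, hyJ, hyI⟩ := Set.not_subset.1 h2
    rcases zmod25_dvd x y with ⟨r, hr⟩ | ⟨r, hr⟩
    · exact hyI (hr ▸ I.mul_mem_left r hxI)
    · exact hxJ (hr ▸ J.mul_mem_left r hyJ)
  rad_ne := by
    intro h
    have h5 : (5 : ZMod 25) ∈ Ring.jacobson (ZMod 25) := by
      rw [Ring.jacobson_eq_sInf_isMaximal]
      have key : ∀ M : Ideal (ZMod 25), M.IsMaximal → (5 : ZMod 25) ∈ M := by
        intro M hM
        apply hM.isPrime.mem_of_pow_mem 2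
        have : (5 : ZMod 25) ^ 2 = 0 := by decide
        rw [this]; exact M.zero_mem
      exact (Submodule.mem_sInf).2 fun M hM => key M hM
    rw [h] at h5
    have : (5 : ZMod 25) ≠ 0 := by decide
    exact this (by simpa using h5)
  rad_sq := by
    have : Nontrivial (ZMod 25) := ⟨⟨0, 1, by decide⟩⟩
    have hne : Ring.jacobson (ZMod 25) ≠ ⊤ := (Ring.jacobson_lt_top (ZMod 25)).ne
    have hx : ∀ x ∈ Ring.jacobson (ZMod 25), 5 * x = 0 := by
      intro x hx
      rcases zmod25_unit x with ⟨r, hr⟩ | h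
      · exfalso
        apply hne
        rw [Ideal.eq_top_iff_one, ← hr]
        exact Ideal.mul_mem_left _ _ hx
      · exact h
    rw [sq, eq_bot_iff, Ideal.mul_le]
    intro r hr s hs
    rw [Submodule.mem_bot]
    exact zmod25_mul r s (hx r hr) (hx s hs)

theorem zmod25_card : Nat.card (ZMod 25 ⧸ Ring.jacobson (ZMod 25)) = 5 := by
  obtain ⟨F, hF, hFt, ⟨X⟩, hcard⟩ := isChainRingTwo_zmod25.exists_ctx
  have h := X.card_R
  rw [ZMod.card] at h
  rw [← hcard]
  nlinarith [h]

end Pool.Agent.Hhelper39.PHG
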